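import Mathlib

/-!
Campaign PQ, F4a: covering inequality for sorted vectors (proved; certificates found by linear programming).
-/

set_option autoImplicit false
set_option linter.unusedVariables false

namespace Pool.Agent.MP_455d73_gt.PQ

private lemma cov0 (w0 w1 w2 w3 : ℝ) (a0 : 0 ≤ w0 - w1) (a1 : 0 ≤ w1 - w2) (a2 : 0 ≤ w1 - w3) (a3 : 0 ≤ w2) (a4 : 0 ≤ w3)
    (b1 : 0 ≤ (1/2)*w0 + (-1/2)*w1 + (-1/2)*w2 + (-1/2)*w3)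
    (b2 : 0 ≤ (191/1000)*w0 + (-1/2)*w1 + (-309/1000)*w2)
    (b3 : 0 ≤ (191/1000)*w0 + (-309/1000)*w1 + (-1/2)*w3)
    (b13 : 0 ≤ (1)*w0 + (-309/1000)*w1 + (-1/2)*w2 + (-809/1000)*w3) :
    21 * (w0 ^ 2 + w1 ^ 2 + w2 ^ 2 + w3 ^ 2) ≤ 25 * ((1)*w0) ^ 2 := by
  linarith only [mul_nonneg a3 b2, mul_nonneg a4 b1, mul_nonneg a1 b2, mul_nonneg b2 b13, mul_nonneg a1 a3, mul_nonneg a4 b3, mul_nonneg a2 a4, mul_nonneg a2 a3, mul_nonneg a1 b3, mul_nonneg a0 a3]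

private lemma cov1 (w0 w1 w2 w3 : ℝ) (a0 : 0 ≤ w0 - w1) (a1 : 0 ≤ w1 - w2) (a2 : 0 ≤ w1 - w3) (a3 : 0 ≤ w2) (a4 : 0 ≤ w3)
    (b2 : 0 ≤ (-309/1000)*w0 + (191/1000)*w2 + (1/2)*w3)
    (b3 : 0 ≤ (-309/1000)*w0 + (191/1000)*w1 + (1/2)*w2)
    (b5 : 0 ≤ (-309/1000)*w1 + (1/2)*w2 + (191/1000)*w3) :
    21 * (w0 ^ 2 + w1 ^ 2 + w2 ^ 2 + w3 ^ 2) ≤ 25 * ((1/2)*w0 + (1/2)*w1 + (1/2)*w2 + (1/2)*w3) ^ 2 := by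
  linarith only [mul_nonneg b2 b3, mul_nonneg a4 b3, mul_nonneg a0 a1, mul_nonneg a2 b2, mul_nonneg a1 b5, mul_nonneg a0 b3, mul_nonneg a3 b2, mul_nonneg a0 b2, mul_nonneg a4 b5, mul_nonneg a1 a2]

private lemma cov2p (w0 w1 w2 w3 : ℝ) (a0 : 0 ≤ w0 - w1) (a1 : 0 ≤ w1 - w2) (a2 : 0 ≤ w1 - w3) (a3 : 0 ≤ w2) (a4 : 0 ≤ w3)
    (b0 : 0 ≤ (-191/1000)*w0 + (1/2)*w1 + (309/1000)*w2)
    (b3 : 0 ≤ (191/1000)*w1 + (309/1000)*w2 + (-1/2)*w3)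
    (b12 : 0 ≤ (809/1000)*w0 + (-1/2)*w2 + (-309/1000)*w3)
    (x : 0 ≤ w0 - w1 - w3) :
    21 * (w0 ^ 2 + w1 ^ 2 + w2 ^ 2 + w3 ^ 2) ≤ 25 * ((809/1000)*w0 + (1/2)*w1 + (309/1000)*w2) ^ 2 := by
  linarith only [mul_nonneg a4 b3, mul_nonneg a0 b0, mul_nonneg a2 a3, mul_nonneg a2 a4, mul_nonneg a4 x, mul_nonneg a1 a3, mul_nonneg a1 x, mul_nonneg a0 b3, mul_nonneg b3 b12, mul_nonneg b0 x]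

private lemma cov2m (w0 w1 w2 w3 : ℝ) (a0 : 0 ≤ w0 - w1) (a1 : 0 ≤ w1 - w2) (a2 : 0 ≤ w1 - w3) (a3 : 0 ≤ w2) (a4 : 0 ≤ w3)
    (b1 : 0 ≤ (309/1000)*w0 + (-191/1000)*w2 + (-1/2)*w3)
    (b3 : 0 ≤ (191/1000)*w1 + (309/1000)*w2 + (-1/2)*w3)
    (b5 : 0 ≤ (309/1000)*w0 + (-309/1000)*w1 + (309/1000)*w2 + (-309/1000)*w3)
    (x : 0 ≤ -(w0 - w1 - w3)) :
    21 * (w0 ^ 2 + w1 ^ 2 + w2 ^ 2 + w3 ^ 2) ≤ 25 * ((809/1000)*w0 + (1/2)*w1 + (309/1000)*w2) ^ 2 := by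
  linarith only [mul_nonneg a0 b3, mul_nonneg a4 b3, mul_nonneg a0 x, mul_nonneg a1 b3, mul_nonneg a1 b5, mul_nonneg a1 a3, mul_nonneg a3 b1, mul_nonneg a0 a3, mul_nonneg a4 b1, mul_nonneg b1 x]

private lemma cov3p (w0 w1 w2 w3 : ℝ) (a0 : 0 ≤ w0 - w1) (a1 : 0 ≤ w1 - w2) (a2 : 0 ≤ w1 - w3) (a3 : 0 ≤ w2) (a4 : 0 ≤ w3)
    (b0 : 0 ≤ (-191/1000)*w0 + (309/1000)*w1 + (1/2)*w3)
    (b2 : 0 ≤ (-191/1000)*w1 + (-309/1000)*w2 + (1/2)*w3)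
    (x : 0 ≤ w0 - w1 - w3) :
    21 * (w0 ^ 2 + w1 ^ 2 + w2 ^ 2 + w3 ^ 2) ≤ 25 * ((809/1000)*w0 + (309/1000)*w1 + (1/2)*w3) ^ 2 := by
  linarith only [mul_nonneg a2 a2, mul_nonneg a4 x, mul_nonneg a1 a3, mul_nonneg a0 b0, mul_nonneg a1 b2, mul_nonneg a2 x, mul_nonneg a3 b2, mul_nonneg b0 x, mul_nonneg a1 a1]

private lemma cov3m (w0 w1 w2 w3 : ℝ) (a0 : 0 ≤ w0 - w1) (a1 : 0 ≤ w1 - w2) (a2 : 0 ≤ w1 - w3) (a3 : 0 ≤ w2) (a4 : 0 ≤ w3)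
    (b1 : 0 ≤ (309/1000)*w0 + (-191/1000)*w1 + (-1/2)*w2)
    (b2 : 0 ≤ (-191/1000)*w1 + (-309/1000)*w2 + (1/2)*w3)
    (b5 : 0 ≤ (309/1000)*w0 + (-1/2)*w1 + (191/1000)*w3)
    (b13 : 0 ≤ (809/1000)*w0 + (-1/2)*w2 + (-309/1000)*w3)
    (x : 0 ≤ -(w0 - w1 - w3)) :
    21 * (w0 ^ 2 + w1 ^ 2 + w2 ^ 2 + w3 ^ 2) ≤ 25 * ((809/1000)*w0 + (309/1000)*w1 + (1/2)*w3) ^ 2 := by
  linarith only [mul_nonneg a0 x, mul_nonneg a0 b2, mul_nonneg b1 x, mul_nonneg b1 b13, mul_nonneg a1 b2, mul_nonneg a1 b5, mul_nonneg a2 x, mul_nonneg a3 b1, mul_nonneg a2 b2, mul_nonneg a0 a0]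

private lemma cov4 (w0 w1 w2 w3 : ℝ) (a0 : 0 ≤ w0 - w1) (a1 : 0 ≤ w1 - w2) (a2 : 0 ≤ w1 - w3) (a3 : 0 ≤ w2) (a4 : 0 ≤ w3)
    (b0 : 0 ≤ (-191/1000)*w0 + (1/2)*w2 + (309/1000)*w3)
    (b1 : 0 ≤ (309/1000)*w0 + (-1/2)*w1 + (-191/1000)*w3)
    (b2 : 0 ≤ (-1/2)*w1 + (191/1000)*w2 + (309/1000)*w3)
    (b3 : 0 ≤ (-309/1000)*w1 + (1/2)*w2 + (-191/1000)*w3)
    (b5 : 0 ≤ (309/1000)*w0 + (-809/1000)*w1 + (1/2)*w2) :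
    21 * (w0 ^ 2 + w1 ^ 2 + w2 ^ 2 + w3 ^ 2) ≤ 25 * ((809/1000)*w0 + (1/2)*w2 + (309/1000)*w3) ^ 2 := by
  linarith only [mul_nonneg a2 b1, mul_nonneg a1 b5, mul_nonneg a0 a2, mul_nonneg a4 a4, mul_nonneg a3 b3, mul_nonneg a0 b2, mul_nonneg b0 b1, mul_nonneg a3 b1, mul_nonneg a2 b2, mul_nonneg a1 a2]

private lemma cov5 (w0 w1 w2 w3 : ℝ) (a0 : 0 ≤ w0 - w1) (a1 : 0 ≤ w1 - w2) (a2 : 0 ≤ w1 - w3) (a3 : 0 ≤ w2) (a4 : 0 ≤ w3)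
    (b0 : 0 ≤ (-1/2)*w0 + (809/1000)*w1 + (309/1000)*w3)
    (b1 : 0 ≤ (309/1000)*w1 + (-1/2)*w2 + (-191/1000)*w3)
    (b2 : 0 ≤ (-309/1000)*w0 + (309/1000)*w1 + (-309/1000)*w2 + (309/1000)*w3)
    (b3 : 0 ≤ (-309/1000)*w0 + (1/2)*w1 + (-191/1000)*w3) :
    21 * (w0 ^ 2 + w1 ^ 2 + w2 ^ 2 + w3 ^ 2) ≤ 25 * ((1/2)*w0 + (809/1000)*w1 + (309/1000)*w3) ^ 2 := by
  linarith only [mul_nonneg a1 b2, mul_nonneg a2 a2, mul_nonneg a2 a3, mul_nonneg a0 b2, mul_nonneg a4 b1, mul_nonneg a0 b3, mul_nonneg b0 b0, mul_nonneg a1 a4, mul_nonneg a2 b2, mul_nonneg a3 b1]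

private lemma cov6 (w0 w1 w2 w3 : ℝ) (a0 : 0 ≤ w0 - w1) (a1 : 0 ≤ w1 - w2) (a2 : 0 ≤ w1 - w3) (a3 : 0 ≤ w2) (a4 : 0 ≤ w3)
    (b0 : 0 ≤ (-1/2)*w0 + (309/1000)*w1 + (809/1000)*w2)
    (b1 : 0 ≤ (-191/1000)*w1 + (309/1000)*w2 + (-1/2)*w3)
    (b2 : 0 ≤ (-309/1000)*w0 + (-191/1000)*w1 + (1/2)*w2)
    (b3 : 0 ≤ (-309/1000)*w0 + (809/1000)*w2 + (-1/2)*w3)
    (b5 : 0 ≤ (-1/2)*w1 + (809/1000)*w2 + (-309/1000)*w3) :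
    21 * (w0 ^ 2 + w1 ^ 2 + w2 ^ 2 + w3 ^ 2) ≤ 25 * ((1/2)*w0 + (309/1000)*w1 + (809/1000)*w2) ^ 2 := by
  linarith only [mul_nonneg a3 b2, mul_nonneg a0 b0, mul_nonneg a0 b1, mul_nonneg a1 a2, mul_nonneg a2 b2, mul_nonneg a4 b3, mul_nonneg a4 b1, mul_nonneg a0 a1, mul_nonneg a1 b5, mul_nonneg a3 b1]

private lemma cov7 (w0 w1 w2 w3 : ℝ) (a0 : 0 ≤ w0 - w1) (a1 : 0 ≤ w1 - w2) (a2 : 0 ≤ w1 - w3) (a3 : 0 ≤ w2) (a4 : 0 ≤ w3)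
    (b0 : 0 ≤ (-1/2)*w0 + (309/1000)*w2 + (809/1000)*w3)
    (b1 : 0 ≤ (-1/2)*w1 + (-191/1000)*w2 + (309/1000)*w3)
    (b3 : 0 ≤ (-309/1000)*w0 + (-309/1000)*w1 + (309/1000)*w2 + (309/1000)*w3)
    (b5 : 0 ≤ (-809/1000)*w1 + (309/1000)*w2 + (1/2)*w3)
    (b8 : 0 ≤ (191/1000)*w0 + (-809/1000)*w1 + (-191/1000)*w2 + (809/1000)*w3) :
    21 * (w0 ^ 2 + w1 ^ 2 + w2 ^ 2 + w3 ^ 2) ≤ 25 * ((1/2)*w0 + (309/1000)*w2 + (809/1000)*w3) ^ 2 := by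
  linarith only [mul_nonneg b0 b0, mul_nonneg a2 b8, mul_nonneg a3 b1, mul_nonneg a0 a1, mul_nonneg a1 a2, mul_nonneg a0 b5, mul_nonneg a3 a3, mul_nonneg a0 b3, mul_nonneg a1 b5, mul_nonneg a2 a3]

private lemma cov8 (w0 w1 w2 w3 : ℝ) (a0 : 0 ≤ w0 - w1) (a1 : 0 ≤ w1 - w2) (a2 : 0 ≤ w1 - w3) (a3 : 0 ≤ w2) (a4 : 0 ≤ w3)
    (b0 : 0 ≤ (-691/1000)*w0 + (809/1000)*w1 + (1/2)*w2)
    (b1 : 0 ≤ (-191/1000)*w0 + (309/1000)*w1 + (-1/2)*w3)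
    (b2 : 0 ≤ (-1/2)*w0 + (309/1000)*w1 + (191/1000)*w2)
    (b3 : 0 ≤ (-1/2)*w0 + (1/2)*w1 + (1/2)*w2 + (-1/2)*w3)
    (b13 : 0 ≤ (309/1000)*w0 + (1/2)*w1 + (-809/1000)*w3) :
    21 * (w0 ^ 2 + w1 ^ 2 + w2 ^ 2 + w3 ^ 2) ≤ 25 * ((309/1000)*w0 + (809/1000)*w1 + (1/2)*w2) ^ 2 := by
  linarith only [mul_nonneg a0 b1, mul_nonneg a4 b3, mul_nonneg a1 b2, mul_nonneg b2 b13, mul_nonneg a0 b0, mul_nonneg a0 a1, mul_nonneg a1 a3, mul_nonneg a3 b1, mul_nonneg a1 b3, mul_nonneg a4 b1]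

private lemma cov9 (w0 w1 w2 w3 : ℝ) (a0 : 0 ≤ w0 - w1) (a1 : 0 ≤ w1 - w2) (a2 : 0 ≤ w1 - w3) (a3 : 0 ≤ w2) (a4 : 0 ≤ w3)
    (b0 : 0 ≤ (-691/1000)*w0 + (1/2)*w1 + (809/1000)*w3)
    (b1 : 0 ≤ (-191/1000)*w0 + (-1/2)*w2 + (309/1000)*w3)
    (b2 : 0 ≤ (-1/2)*w0 + (-309/1000)*w2 + (809/1000)*w3)
    (b3 : 0 ≤ (-1/2)*w0 + (191/1000)*w1 + (309/1000)*w3)
    (b5 : 0 ≤ (-191/1000)*w0 + (-309/1000)*w1 + (1/2)*w3)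
    (b12 : 0 ≤ (309/1000)*w0 + (-809/1000)*w2 + (1/2)*w3) :
    21 * (w0 ^ 2 + w1 ^ 2 + w2 ^ 2 + w3 ^ 2) ≤ 25 * ((309/1000)*w0 + (1/2)*w1 + (809/1000)*w3) ^ 2 := by
  linarith only [mul_nonneg a3 b5, mul_nonneg a0 b0, mul_nonneg b1 b12, mul_nonneg a3 b0, mul_nonneg b3 b12, mul_nonneg a0 b1, mul_nonneg a0 a2, mul_nonneg a3 b1, mul_nonneg a2 b2, mul_nonneg a1 b5]

private lemma cov10 (w0 w1 w2 w3 : ℝ) (a0 : 0 ≤ w0 - w1) (a1 : 0 ≤ w1 - w2) (a2 : 0 ≤ w1 - w3) (a3 : 0 ≤ w2) (a4 : 0 ≤ w3)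
    (b0 : 0 ≤ (-691/1000)*w0 + (809/1000)*w2 + (1/2)*w3)
    (b1 : 0 ≤ (-191/1000)*w0 + (-1/2)*w1 + (309/1000)*w2)
    (b2 : 0 ≤ (-1/2)*w0 + (-1/2)*w1 + (1/2)*w2 + (1/2)*w3)
    (b5 : 0 ≤ (-191/1000)*w0 + (-809/1000)*w1 + (809/1000)*w2 + (191/1000)*w3)
    (b9 : 0 ≤ (-1/2)*w1 + (809/1000)*w2 + (-309/1000)*w3) :
    21 * (w0 ^ 2 + w1 ^ 2 + w2 ^ 2 + w3 ^ 2) ≤ 25 * ((309/1000)*w0 + (809/1000)*w2 + (1/2)*w3) ^ 2 := by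
  linarith only [mul_nonneg a2 a3, mul_nonneg a0 b0, mul_nonneg a0 a2, mul_nonneg a2 b2, mul_nonneg a3 b1, mul_nonneg a1 b5, mul_nonneg a1 a3, mul_nonneg a0 a0, mul_nonneg a4 b0, mul_nonneg a4 b9]

private lemma cov11 (w0 w1 w2 w3 : ℝ) (a0 : 0 ≤ w0 - w1) (a1 : 0 ≤ w1 - w2) (a2 : 0 ≤ w1 - w3) (a3 : 0 ≤ w2) (a4 : 0 ≤ w3)
    (b0 : 0 ≤ (-1)*w0 + (809/1000)*w1 + (309/1000)*w2 + (1/2)*w3)
    (b1 : 0 ≤ (-1/2)*w0 + (309/1000)*w1 + (-191/1000)*w2)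
    (b2 : 0 ≤ (-809/1000)*w0 + (309/1000)*w1 + (1/2)*w3)
    (b3 : 0 ≤ (-809/1000)*w0 + (1/2)*w1 + (309/1000)*w2) :
    21 * (w0 ^ 2 + w1 ^ 2 + w2 ^ 2 + w3 ^ 2) ≤ 25 * ((809/1000)*w1 + (309/1000)*w2 + (1/2)*w3) ^ 2 := by
  linarith only [mul_nonneg a3 a3, mul_nonneg a0 b0, mul_nonneg a2 b2, mul_nonneg a3 b1, mul_nonneg a0 a1, mul_nonneg a0 a2, mul_nonneg a1 a2, mul_nonneg a1 b3, mul_nonneg a3 b0, mul_nonneg a2 a4]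

private lemma cov12 (w0 w1 w2 w3 : ℝ) (a0 : 0 ≤ w0 - w1) (a1 : 0 ≤ w1 - w2) (a2 : 0 ≤ w1 - w3) (a3 : 0 ≤ w2) (a4 : 0 ≤ w3)
    (b0 : 0 ≤ (-1)*w0 + (1/2)*w1 + (809/1000)*w2 + (309/1000)*w3)
    (b1 : 0 ≤ (-1/2)*w0 + (309/1000)*w2 + (-191/1000)*w3)
    (b2 : 0 ≤ (-809/1000)*w0 + (1/2)*w2 + (309/1000)*w3)
    (b3 : 0 ≤ (-809/1000)*w0 + (191/1000)*w1 + (809/1000)*w2 + (-191/1000)*w3)
    (b5 : 0 ≤ (-1/2)*w0 + (-309/1000)*w1 + (809/1000)*w2) :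
    21 * (w0 ^ 2 + w1 ^ 2 + w2 ^ 2 + w3 ^ 2) ≤ 25 * ((1/2)*w1 + (809/1000)*w2 + (309/1000)*w3) ^ 2 := by
  linarith only [mul_nonneg a4 a4, mul_nonneg a0 b0, mul_nonneg a1 b5, mul_nonneg a1 a2, mul_nonneg a0 a3, mul_nonneg a3 b1, mul_nonneg a2 a4, mul_nonneg a0 a1, mul_nonneg a2 b2, mul_nonneg a4 b3]

private lemma cov13 (w0 w1 w2 w3 : ℝ) (a0 : 0 ≤ w0 - w1) (a1 : 0 ≤ w1 - w2) (a2 : 0 ≤ w1 - w3) (a3 : 0 ≤ w2) (a4 : 0 ≤ w3)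
    (b0 : 0 ≤ (-1)*w0 + (309/1000)*w1 + (1/2)*w2 + (809/1000)*w3)
    (b1 : 0 ≤ (-1/2)*w0 + (-191/1000)*w1 + (309/1000)*w3)
    (b2 : 0 ≤ (-809/1000)*w0 + (-191/1000)*w1 + (191/1000)*w2 + (809/1000)*w3)
    (b5 : 0 ≤ (-1/2)*w0 + (-1/2)*w1 + (1/2)*w2 + (1/2)*w3)
    (b6 : 0 ≤ (-1/2)*w0 + (-309/1000)*w2 + (809/1000)*w3) :
    21 * (w0 ^ 2 + w1 ^ 2 + w2 ^ 2 + w3 ^ 2) ≤ 25 * ((309/1000)*w1 + (1/2)*w2 + (809/1000)*w3) ^ 2 := by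
  linarith only [mul_nonneg a2 a2, mul_nonneg a0 b0, mul_nonneg a2 b2, mul_nonneg a3 b6, mul_nonneg a4 b1, mul_nonneg a2 a4, mul_nonneg a1 b5, mul_nonneg a0 a3, mul_nonneg a3 a3, mul_nonneg a4 a4]

/-- The functionals. -/
private noncomputable def fn (w0 w1 w2 w3 : ℝ) : Fin 14 → ℝ
  | 0 => (1)*w0
  | 1 => (1/2)*w0 + (1/2)*w1 + (1/2)*w2 + (1/2)*w3
  | 2 => (809/1000)*w0 + (1/2)*w1 + (309/1000)*w2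
  | 3 => (809/1000)*w0 + (309/1000)*w1 + (1/2)*w3
  | 4 => (809/1000)*w0 + (1/2)*w2 + (309/1000)*w3
  | 5 => (1/2)*w0 + (809/1000)*w1 + (309/1000)*w3
  | 6 => (1/2)*w0 + (309/1000)*w1 + (809/1000)*w2
  | 7 => (1/2)*w0 + (309/1000)*w2 + (809/1000)*w3
  | 8 => (309/1000)*w0 + (809/1000)*w1 + (1/2)*w2
  | 9 => (309/1000)*w0 + (1/2)*w1 + (809/1000)*w3
  | 10 => (309/1000)*w0 + (809/1000)*w2 + (1/2)*w3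
  | 11 => (809/1000)*w1 + (309/1000)*w2 + (1/2)*w3
  | 12 => (1/2)*w1 + (809/1000)*w2 + (309/1000)*w3
  | 13 => (309/1000)*w1 + (1/2)*w2 + (809/1000)*w3

private lemma case0 (w0 w1 w2 w3 : ℝ) (m : ℝ) (a0 : w1 ≤ w0) (a1 : w2 ≤ w1) (a2 : w3 ≤ w1) (a3 : 0 ≤ w2) (a4 : 0 ≤ w3)
    (g1 : (1/2)*w0 + (1/2)*w1 + (1/2)*w2 + (1/2)*w3 ≤ (1)*w0)
    (g2 : (809/1000)*w0 + (1/2)*w1 + (309/1000)*w2 ≤ (1)*w0)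
    (g3 : (809/1000)*w0 + (309/1000)*w1 + (1/2)*w3 ≤ (1)*w0)
    (g13 : (309/1000)*w1 + (1/2)*w2 + (809/1000)*w3 ≤ (1)*w0)
    (h : (1)*w0 ≤ m) : 21 * (w0 ^ 2 + w1 ^ 2 + w2 ^ 2 + w3 ^ 2) ≤ 25 * m ^ 2 := by
  have z1 : 0 ≤ w1 := le_trans a3 a1
  have z0 : 0 ≤ w0 := le_trans z1 a0
  have hh := cov0 w0 w1 w2 w3 (sub_nonneg.mpr a0) (sub_nonneg.mpr a1) (sub_nonneg.mpr a2) a3 a4 (by linarith only [g1]) (by linarith only [g2]) (by linarith only [g3]) (by linarith only [g13])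
  have hp : 0 ≤ (1)*w0 := by positivity
  have hm : ((1)*w0) ^ 2 ≤ m ^ 2 := pow_le_pow_left₀ hp h 2
  linarith only [hh, hm]

private lemma case1 (w0 w1 w2 w3 : ℝ) (m : ℝ) (a0 : w1 ≤ w0) (a1 : w2 ≤ w1) (a2 : w3 ≤ w1) (a3 : 0 ≤ w2) (a4 : 0 ≤ w3)
    (g2 : (809/1000)*w0 + (1/2)*w1 + (309/1000)*w2 ≤ (1/2)*w0 + (1/2)*w1 + (1/2)*w2 + (1/2)*w3)
    (g3 : (809/1000)*w0 + (309/1000)*w1 + (1/2)*w3 ≤ (1/2)*w0 + (1/2)*w1 + (1/2)*w2 + (1/2)*w3)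
    (g5 : (1/2)*w0 + (809/1000)*w1 + (309/1000)*w3 ≤ (1/2)*w0 + (1/2)*w1 + (1/2)*w2 + (1/2)*w3)
    (h : (1/2)*w0 + (1/2)*w1 + (1/2)*w2 + (1/2)*w3 ≤ m) : 21 * (w0 ^ 2 + w1 ^ 2 + w2 ^ 2 + w3 ^ 2) ≤ 25 * m ^ 2 := by
  have z1 : 0 ≤ w1 := le_trans a3 a1
  have z0 : 0 ≤ w0 := le_trans z1 a0
  have hh := cov1 w0 w1 w2 w3 (sub_nonneg.mpr a0) (sub_nonneg.mpr a1) (sub_nonneg.mpr a2) a3 a4 (by linarith only [g2]) (by linarith only [g3]) (by linarith only [g5])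
  have hp : 0 ≤ (1/2)*w0 + (1/2)*w1 + (1/2)*w2 + (1/2)*w3 := by positivity
  have hm : ((1/2)*w0 + (1/2)*w1 + (1/2)*w2 + (1/2)*w3) ^ 2 ≤ m ^ 2 := pow_le_pow_left₀ hp h 2
  linarith only [hh, hm]

private lemma case2 (w0 w1 w2 w3 : ℝ) (m : ℝ) (a0 : w1 ≤ w0) (a1 : w2 ≤ w1) (a2 : w3 ≤ w1) (a3 : 0 ≤ w2) (a4 : 0 ≤ w3)
    (g0 : (1)*w0 ≤ (809/1000)*w0 + (1/2)*w1 + (309/1000)*w2)
    (g1 : (1/2)*w0 + (1/2)*w1 + (1/2)*w2 + (1/2)*w3 ≤ (809/1000)*w0 + (1/2)*w1 + (309/1000)*w2)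
    (g3 : (809/1000)*w0 + (309/1000)*w1 + (1/2)*w3 ≤ (809/1000)*w0 + (1/2)*w1 + (309/1000)*w2)
    (g5 : (1/2)*w0 + (809/1000)*w1 + (309/1000)*w3 ≤ (809/1000)*w0 + (1/2)*w1 + (309/1000)*w2)
    (g12 : (1/2)*w1 + (809/1000)*w2 + (309/1000)*w3 ≤ (809/1000)*w0 + (1/2)*w1 + (309/1000)*w2)
    (h : (809/1000)*w0 + (1/2)*w1 + (309/1000)*w2 ≤ m) : 21 * (w0 ^ 2 + w1 ^ 2 + w2 ^ 2 + w3 ^ 2) ≤ 25 * m ^ 2 := by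
  have z1 : 0 ≤ w1 := le_trans a3 a1
  have z0 : 0 ≤ w0 := le_trans z1 a0
  have hh : 21 * (w0 ^ 2 + w1 ^ 2 + w2 ^ 2 + w3 ^ 2) ≤ 25 * ((809/1000)*w0 + (1/2)*w1 + (309/1000)*w2) ^ 2 := by
      rcases le_total (w1 + w3) w0 with hx | hx
      · exact cov2p w0 w1 w2 w3 (sub_nonneg.mpr a0) (sub_nonneg.mpr a1) (sub_nonneg.mpr a2) a3 a4 (by linarith only [g0]) (by linarith only [g3]) (by linarith only [g12]) (by linarith only [hx])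
      · exact cov2m w0 w1 w2 w3 (sub_nonneg.mpr a0) (sub_nonneg.mpr a1) (sub_nonneg.mpr a2) a3 a4 (by linarith only [g1]) (by linarith only [g3]) (by linarith only [g5]) (by linarith only [hx])
  have hp : 0 ≤ (809/1000)*w0 + (1/2)*w1 + (309/1000)*w2 := by positivity
  have hm : ((809/1000)*w0 + (1/2)*w1 + (309/1000)*w2) ^ 2 ≤ m ^ 2 := pow_le_pow_left₀ hp h 2
  linarith only [hh, hm]

private lemma case3 (w0 w1 w2 w3 : ℝ) (m : ℝ) (a0 : w1 ≤ w0) (a1 : w2 ≤ w1) (a2 : w3 ≤ w1) (a3 : 0 ≤ w2) (a4 : 0 ≤ w3)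
    (g0 : (1)*w0 ≤ (809/1000)*w0 + (309/1000)*w1 + (1/2)*w3)
    (g1 : (1/2)*w0 + (1/2)*w1 + (1/2)*w2 + (1/2)*w3 ≤ (809/1000)*w0 + (309/1000)*w1 + (1/2)*w3)
    (g2 : (809/1000)*w0 + (1/2)*w1 + (309/1000)*w2 ≤ (809/1000)*w0 + (309/1000)*w1 + (1/2)*w3)
    (g5 : (1/2)*w0 + (809/1000)*w1 + (309/1000)*w3 ≤ (809/1000)*w0 + (309/1000)*w1 + (1/2)*w3)
    (g13 : (309/1000)*w1 + (1/2)*w2 + (809/1000)*w3 ≤ (809/1000)*w0 + (309/1000)*w1 + (1/2)*w3)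
    (h : (809/1000)*w0 + (309/1000)*w1 + (1/2)*w3 ≤ m) : 21 * (w0 ^ 2 + w1 ^ 2 + w2 ^ 2 + w3 ^ 2) ≤ 25 * m ^ 2 := by
  have z1 : 0 ≤ w1 := le_trans a3 a1
  have z0 : 0 ≤ w0 := le_trans z1 a0
  have hh : 21 * (w0 ^ 2 + w1 ^ 2 + w2 ^ 2 + w3 ^ 2) ≤ 25 * ((809/1000)*w0 + (309/1000)*w1 + (1/2)*w3) ^ 2 := by
      rcases le_total (w1 + w3) w0 with hx | hx
      · exact cov3p w0 w1 w2 w3 (sub_nonneg.mpr a0) (sub_nonneg.mpr a1) (sub_nonneg.mpr a2) a3 a4 (by linarith only [g0]) (by linarith only [g2]) (by linarith only [hx])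
      · exact cov3m w0 w1 w2 w3 (sub_nonneg.mpr a0) (sub_nonneg.mpr a1) (sub_nonneg.mpr a2) a3 a4 (by linarith only [g1]) (by linarith only [g2]) (by linarith only [g5]) (by linarith only [g13]) (by linarith only [hx])
  have hp : 0 ≤ (809/1000)*w0 + (309/1000)*w1 + (1/2)*w3 := by positivity
  have hm : ((809/1000)*w0 + (309/1000)*w1 + (1/2)*w3) ^ 2 ≤ m ^ 2 := pow_le_pow_left₀ hp h 2
  linarith only [hh, hm]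

private lemma case4 (w0 w1 w2 w3 : ℝ) (m : ℝ) (a0 : w1 ≤ w0) (a1 : w2 ≤ w1) (a2 : w3 ≤ w1) (a3 : 0 ≤ w2) (a4 : 0 ≤ w3)
    (g0 : (1)*w0 ≤ (809/1000)*w0 + (1/2)*w2 + (309/1000)*w3)
    (g1 : (1/2)*w0 + (1/2)*w1 + (1/2)*w2 + (1/2)*w3 ≤ (809/1000)*w0 + (1/2)*w2 + (309/1000)*w3)
    (g2 : (809/1000)*w0 + (1/2)*w1 + (309/1000)*w2 ≤ (809/1000)*w0 + (1/2)*w2 + (309/1000)*w3)
    (g3 : (809/1000)*w0 + (309/1000)*w1 + (1/2)*w3 ≤ (809/1000)*w0 + (1/2)*w2 + (309/1000)*w3)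
    (g5 : (1/2)*w0 + (809/1000)*w1 + (309/1000)*w3 ≤ (809/1000)*w0 + (1/2)*w2 + (309/1000)*w3)
    (h : (809/1000)*w0 + (1/2)*w2 + (309/1000)*w3 ≤ m) : 21 * (w0 ^ 2 + w1 ^ 2 + w2 ^ 2 + w3 ^ 2) ≤ 25 * m ^ 2 := by
  have z1 : 0 ≤ w1 := le_trans a3 a1
  have z0 : 0 ≤ w0 := le_trans z1 a0
  have hh := cov4 w0 w1 w2 w3 (sub_nonneg.mpr a0) (sub_nonneg.mpr a1) (sub_nonneg.mpr a2) a3 a4 (by linarith only [g0]) (by linarith only [g1]) (by linarith only [g2]) (by linarith only [g3]) (by linarith only [g5])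
  have hp : 0 ≤ (809/1000)*w0 + (1/2)*w2 + (309/1000)*w3 := by positivity
  have hm : ((809/1000)*w0 + (1/2)*w2 + (309/1000)*w3) ^ 2 ≤ m ^ 2 := pow_le_pow_left₀ hp h 2
  linarith only [hh, hm]

private lemma case5 (w0 w1 w2 w3 : ℝ) (m : ℝ) (a0 : w1 ≤ w0) (a1 : w2 ≤ w1) (a2 : w3 ≤ w1) (a3 : 0 ≤ w2) (a4 : 0 ≤ w3)
    (g0 : (1)*w0 ≤ (1/2)*w0 + (809/1000)*w1 + (309/1000)*w3)
    (g1 : (1/2)*w0 + (1/2)*w1 + (1/2)*w2 + (1/2)*w3 ≤ (1/2)*w0 + (809/1000)*w1 + (309/1000)*w3)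
    (g2 : (809/1000)*w0 + (1/2)*w1 + (309/1000)*w2 ≤ (1/2)*w0 + (809/1000)*w1 + (309/1000)*w3)
    (g3 : (809/1000)*w0 + (309/1000)*w1 + (1/2)*w3 ≤ (1/2)*w0 + (809/1000)*w1 + (309/1000)*w3)
    (h : (1/2)*w0 + (809/1000)*w1 + (309/1000)*w3 ≤ m) : 21 * (w0 ^ 2 + w1 ^ 2 + w2 ^ 2 + w3 ^ 2) ≤ 25 * m ^ 2 := by
  have z1 : 0 ≤ w1 := le_trans a3 a1
  have z0 : 0 ≤ w0 := le_trans z1 a0
  have hh := cov5 w0 w1 w2 w3 (sub_nonneg.mpr a0) (sub_nonneg.mpr a1) (sub_nonneg.mpr a2) a3 a4 (by linarith only [g0]) (by linarith only [g1]) (by linarith only [g2]) (by linarith only [g3])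
  have hp : 0 ≤ (1/2)*w0 + (809/1000)*w1 + (309/1000)*w3 := by positivity
  have hm : ((1/2)*w0 + (809/1000)*w1 + (309/1000)*w3) ^ 2 ≤ m ^ 2 := pow_le_pow_left₀ hp h 2
  linarith only [hh, hm]

private lemma case6 (w0 w1 w2 w3 : ℝ) (m : ℝ) (a0 : w1 ≤ w0) (a1 : w2 ≤ w1) (a2 : w3 ≤ w1) (a3 : 0 ≤ w2) (a4 : 0 ≤ w3)
    (g0 : (1)*w0 ≤ (1/2)*w0 + (309/1000)*w1 + (809/1000)*w2)
    (g1 : (1/2)*w0 + (1/2)*w1 + (1/2)*w2 + (1/2)*w3 ≤ (1/2)*w0 + (309/1000)*w1 + (809/1000)*w2)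
    (g2 : (809/1000)*w0 + (1/2)*w1 + (309/1000)*w2 ≤ (1/2)*w0 + (309/1000)*w1 + (809/1000)*w2)
    (g3 : (809/1000)*w0 + (309/1000)*w1 + (1/2)*w3 ≤ (1/2)*w0 + (309/1000)*w1 + (809/1000)*w2)
    (g5 : (1/2)*w0 + (809/1000)*w1 + (309/1000)*w3 ≤ (1/2)*w0 + (309/1000)*w1 + (809/1000)*w2)
    (h : (1/2)*w0 + (309/1000)*w1 + (809/1000)*w2 ≤ m) : 21 * (w0 ^ 2 + w1 ^ 2 + w2 ^ 2 + w3 ^ 2) ≤ 25 * m ^ 2 := by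
  have z1 : 0 ≤ w1 := le_trans a3 a1
  have z0 : 0 ≤ w0 := le_trans z1 a0
  have hh := cov6 w0 w1 w2 w3 (sub_nonneg.mpr a0) (sub_nonneg.mpr a1) (sub_nonneg.mpr a2) a3 a4 (by linarith only [g0]) (by linarith only [g1]) (by linarith only [g2]) (by linarith only [g3]) (by linarith only [g5])
  have hp : 0 ≤ (1/2)*w0 + (309/1000)*w1 + (809/1000)*w2 := by positivity
  have hm : ((1/2)*w0 + (309/1000)*w1 + (809/1000)*w2) ^ 2 ≤ m ^ 2 := pow_le_pow_left₀ hp h 2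
  linarith only [hh, hm]

private lemma case7 (w0 w1 w2 w3 : ℝ) (m : ℝ) (a0 : w1 ≤ w0) (a1 : w2 ≤ w1) (a2 : w3 ≤ w1) (a3 : 0 ≤ w2) (a4 : 0 ≤ w3)
    (g0 : (1)*w0 ≤ (1/2)*w0 + (309/1000)*w2 + (809/1000)*w3)
    (g1 : (1/2)*w0 + (1/2)*w1 + (1/2)*w2 + (1/2)*w3 ≤ (1/2)*w0 + (309/1000)*w2 + (809/1000)*w3)
    (g3 : (809/1000)*w0 + (309/1000)*w1 + (1/2)*w3 ≤ (1/2)*w0 + (309/1000)*w2 + (809/1000)*w3)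
    (g5 : (1/2)*w0 + (809/1000)*w1 + (309/1000)*w3 ≤ (1/2)*w0 + (309/1000)*w2 + (809/1000)*w3)
    (g8 : (309/1000)*w0 + (809/1000)*w1 + (1/2)*w2 ≤ (1/2)*w0 + (309/1000)*w2 + (809/1000)*w3)
    (h : (1/2)*w0 + (309/1000)*w2 + (809/1000)*w3 ≤ m) : 21 * (w0 ^ 2 + w1 ^ 2 + w2 ^ 2 + w3 ^ 2) ≤ 25 * m ^ 2 := by
  have z1 : 0 ≤ w1 := le_trans a3 a1
  have z0 : 0 ≤ w0 := le_trans z1 a0
  have hh := cov7 w0 w1 w2 w3 (sub_nonneg.mpr a0) (sub_nonneg.mpr a1) (sub_nonneg.mpr a2) a3 a4 (by linarith only [g0]) (by linarith only [g1]) (by linarith only [g3]) (by linarith only [g5]) (by linarith only [g8])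
  have hp : 0 ≤ (1/2)*w0 + (309/1000)*w2 + (809/1000)*w3 := by positivity
  have hm : ((1/2)*w0 + (309/1000)*w2 + (809/1000)*w3) ^ 2 ≤ m ^ 2 := pow_le_pow_left₀ hp h 2
  linarith only [hh, hm]

private lemma case8 (w0 w1 w2 w3 : ℝ) (m : ℝ) (a0 : w1 ≤ w0) (a1 : w2 ≤ w1) (a2 : w3 ≤ w1) (a3 : 0 ≤ w2) (a4 : 0 ≤ w3)
    (g0 : (1)*w0 ≤ (309/1000)*w0 + (809/1000)*w1 + (1/2)*w2)
    (g1 : (1/2)*w0 + (1/2)*w1 + (1/2)*w2 + (1/2)*w3 ≤ (309/1000)*w0 + (809/1000)*w1 + (1/2)*w2)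
    (g2 : (809/1000)*w0 + (1/2)*w1 + (309/1000)*w2 ≤ (309/1000)*w0 + (809/1000)*w1 + (1/2)*w2)
    (g3 : (809/1000)*w0 + (309/1000)*w1 + (1/2)*w3 ≤ (309/1000)*w0 + (809/1000)*w1 + (1/2)*w2)
    (g13 : (309/1000)*w1 + (1/2)*w2 + (809/1000)*w3 ≤ (309/1000)*w0 + (809/1000)*w1 + (1/2)*w2)
    (h : (309/1000)*w0 + (809/1000)*w1 + (1/2)*w2 ≤ m) : 21 * (w0 ^ 2 + w1 ^ 2 + w2 ^ 2 + w3 ^ 2) ≤ 25 * m ^ 2 := by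
  have z1 : 0 ≤ w1 := le_trans a3 a1
  have z0 : 0 ≤ w0 := le_trans z1 a0
  have hh := cov8 w0 w1 w2 w3 (sub_nonneg.mpr a0) (sub_nonneg.mpr a1) (sub_nonneg.mpr a2) a3 a4 (by linarith only [g0]) (by linarith only [g1]) (by linarith only [g2]) (by linarith only [g3]) (by linarith only [g13])
  have hp : 0 ≤ (309/1000)*w0 + (809/1000)*w1 + (1/2)*w2 := by positivity
  have hm : ((309/1000)*w0 + (809/1000)*w1 + (1/2)*w2) ^ 2 ≤ m ^ 2 := pow_le_pow_left₀ hp h 2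
  linarith only [hh, hm]

private lemma case9 (w0 w1 w2 w3 : ℝ) (m : ℝ) (a0 : w1 ≤ w0) (a1 : w2 ≤ w1) (a2 : w3 ≤ w1) (a3 : 0 ≤ w2) (a4 : 0 ≤ w3)
    (g0 : (1)*w0 ≤ (309/1000)*w0 + (1/2)*w1 + (809/1000)*w3)
    (g1 : (1/2)*w0 + (1/2)*w1 + (1/2)*w2 + (1/2)*w3 ≤ (309/1000)*w0 + (1/2)*w1 + (809/1000)*w3)
    (g2 : (809/1000)*w0 + (1/2)*w1 + (309/1000)*w2 ≤ (309/1000)*w0 + (1/2)*w1 + (809/1000)*w3)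
    (g3 : (809/1000)*w0 + (309/1000)*w1 + (1/2)*w3 ≤ (309/1000)*w0 + (1/2)*w1 + (809/1000)*w3)
    (g5 : (1/2)*w0 + (809/1000)*w1 + (309/1000)*w3 ≤ (309/1000)*w0 + (1/2)*w1 + (809/1000)*w3)
    (g12 : (1/2)*w1 + (809/1000)*w2 + (309/1000)*w3 ≤ (309/1000)*w0 + (1/2)*w1 + (809/1000)*w3)
    (h : (309/1000)*w0 + (1/2)*w1 + (809/1000)*w3 ≤ m) : 21 * (w0 ^ 2 + w1 ^ 2 + w2 ^ 2 + w3 ^ 2) ≤ 25 * m ^ 2 := by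
  have z1 : 0 ≤ w1 := le_trans a3 a1
  have z0 : 0 ≤ w0 := le_trans z1 a0
  have hh := cov9 w0 w1 w2 w3 (sub_nonneg.mpr a0) (sub_nonneg.mpr a1) (sub_nonneg.mpr a2) a3 a4 (by linarith only [g0]) (by linarith only [g1]) (by linarith only [g2]) (by linarith only [g3]) (by linarith only [g5]) (by linarith only [g12])
  have hp : 0 ≤ (309/1000)*w0 + (1/2)*w1 + (809/1000)*w3 := by positivity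
  have hm : ((309/1000)*w0 + (1/2)*w1 + (809/1000)*w3) ^ 2 ≤ m ^ 2 := pow_le_pow_left₀ hp h 2
  linarith only [hh, hm]

private lemma case10 (w0 w1 w2 w3 : ℝ) (m : ℝ) (a0 : w1 ≤ w0) (a1 : w2 ≤ w1) (a2 : w3 ≤ w1) (a3 : 0 ≤ w2) (a4 : 0 ≤ w3)
    (g0 : (1)*w0 ≤ (309/1000)*w0 + (809/1000)*w2 + (1/2)*w3)
    (g1 : (1/2)*w0 + (1/2)*w1 + (1/2)*w2 + (1/2)*w3 ≤ (309/1000)*w0 + (809/1000)*w2 + (1/2)*w3)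
    (g2 : (809/1000)*w0 + (1/2)*w1 + (309/1000)*w2 ≤ (309/1000)*w0 + (809/1000)*w2 + (1/2)*w3)
    (g5 : (1/2)*w0 + (809/1000)*w1 + (309/1000)*w3 ≤ (309/1000)*w0 + (809/1000)*w2 + (1/2)*w3)
    (g9 : (309/1000)*w0 + (1/2)*w1 + (809/1000)*w3 ≤ (309/1000)*w0 + (809/1000)*w2 + (1/2)*w3)
    (h : (309/1000)*w0 + (809/1000)*w2 + (1/2)*w3 ≤ m) : 21 * (w0 ^ 2 + w1 ^ 2 + w2 ^ 2 + w3 ^ 2) ≤ 25 * m ^ 2 := by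
  have z1 : 0 ≤ w1 := le_trans a3 a1
  have z0 : 0 ≤ w0 := le_trans z1 a0
  have hh := cov10 w0 w1 w2 w3 (sub_nonneg.mpr a0) (sub_nonneg.mpr a1) (sub_nonneg.mpr a2) a3 a4 (by linarith only [g0]) (by linarith only [g1]) (by linarith only [g2]) (by linarith only [g5]) (by linarith only [g9])
  have hp : 0 ≤ (309/1000)*w0 + (809/1000)*w2 + (1/2)*w3 := by positivity
  have hm : ((309/1000)*w0 + (809/1000)*w2 + (1/2)*w3) ^ 2 ≤ m ^ 2 := pow_le_pow_left₀ hp h 2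
  linarith only [hh, hm]

private lemma case11 (w0 w1 w2 w3 : ℝ) (m : ℝ) (a0 : w1 ≤ w0) (a1 : w2 ≤ w1) (a2 : w3 ≤ w1) (a3 : 0 ≤ w2) (a4 : 0 ≤ w3)
    (g0 : (1)*w0 ≤ (809/1000)*w1 + (309/1000)*w2 + (1/2)*w3)
    (g1 : (1/2)*w0 + (1/2)*w1 + (1/2)*w2 + (1/2)*w3 ≤ (809/1000)*w1 + (309/1000)*w2 + (1/2)*w3)
    (g2 : (809/1000)*w0 + (1/2)*w1 + (309/1000)*w2 ≤ (809/1000)*w1 + (309/1000)*w2 + (1/2)*w3)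
    (g3 : (809/1000)*w0 + (309/1000)*w1 + (1/2)*w3 ≤ (809/1000)*w1 + (309/1000)*w2 + (1/2)*w3)
    (h : (809/1000)*w1 + (309/1000)*w2 + (1/2)*w3 ≤ m) : 21 * (w0 ^ 2 + w1 ^ 2 + w2 ^ 2 + w3 ^ 2) ≤ 25 * m ^ 2 := by
  have z1 : 0 ≤ w1 := le_trans a3 a1
  have z0 : 0 ≤ w0 := le_trans z1 a0
  have hh := cov11 w0 w1 w2 w3 (sub_nonneg.mpr a0) (sub_nonneg.mpr a1) (sub_nonneg.mpr a2) a3 a4 (by linarith only [g0]) (by linarith only [g1]) (by linarith only [g2]) (by linarith only [g3])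
  have hp : 0 ≤ (809/1000)*w1 + (309/1000)*w2 + (1/2)*w3 := by positivity
  have hm : ((809/1000)*w1 + (309/1000)*w2 + (1/2)*w3) ^ 2 ≤ m ^ 2 := pow_le_pow_left₀ hp h 2
  linarith only [hh, hm]

private lemma case12 (w0 w1 w2 w3 : ℝ) (m : ℝ) (a0 : w1 ≤ w0) (a1 : w2 ≤ w1) (a2 : w3 ≤ w1) (a3 : 0 ≤ w2) (a4 : 0 ≤ w3)
    (g0 : (1)*w0 ≤ (1/2)*w1 + (809/1000)*w2 + (309/1000)*w3)
    (g1 : (1/2)*w0 + (1/2)*w1 + (1/2)*w2 + (1/2)*w3 ≤ (1/2)*w1 + (809/1000)*w2 + (309/1000)*w3)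
    (g2 : (809/1000)*w0 + (1/2)*w1 + (309/1000)*w2 ≤ (1/2)*w1 + (809/1000)*w2 + (309/1000)*w3)
    (g3 : (809/1000)*w0 + (309/1000)*w1 + (1/2)*w3 ≤ (1/2)*w1 + (809/1000)*w2 + (309/1000)*w3)
    (g5 : (1/2)*w0 + (809/1000)*w1 + (309/1000)*w3 ≤ (1/2)*w1 + (809/1000)*w2 + (309/1000)*w3)
    (h : (1/2)*w1 + (809/1000)*w2 + (309/1000)*w3 ≤ m) : 21 * (w0 ^ 2 + w1 ^ 2 + w2 ^ 2 + w3 ^ 2) ≤ 25 * m ^ 2 := by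
  have z1 : 0 ≤ w1 := le_trans a3 a1
  have z0 : 0 ≤ w0 := le_trans z1 a0
  have hh := cov12 w0 w1 w2 w3 (sub_nonneg.mpr a0) (sub_nonneg.mpr a1) (sub_nonneg.mpr a2) a3 a4 (by linarith only [g0]) (by linarith only [g1]) (by linarith only [g2]) (by linarith only [g3]) (by linarith only [g5])
  have hp : 0 ≤ (1/2)*w1 + (809/1000)*w2 + (309/1000)*w3 := by positivity
  have hm : ((1/2)*w1 + (809/1000)*w2 + (309/1000)*w3) ^ 2 ≤ m ^ 2 := pow_le_pow_left₀ hp h 2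
  linarith only [hh, hm]

private lemma case13 (w0 w1 w2 w3 : ℝ) (m : ℝ) (a0 : w1 ≤ w0) (a1 : w2 ≤ w1) (a2 : w3 ≤ w1) (a3 : 0 ≤ w2) (a4 : 0 ≤ w3)
    (g0 : (1)*w0 ≤ (309/1000)*w1 + (1/2)*w2 + (809/1000)*w3)
    (g1 : (1/2)*w0 + (1/2)*w1 + (1/2)*w2 + (1/2)*w3 ≤ (309/1000)*w1 + (1/2)*w2 + (809/1000)*w3)
    (g2 : (809/1000)*w0 + (1/2)*w1 + (309/1000)*w2 ≤ (309/1000)*w1 + (1/2)*w2 + (809/1000)*w3)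
    (g5 : (1/2)*w0 + (809/1000)*w1 + (309/1000)*w3 ≤ (309/1000)*w1 + (1/2)*w2 + (809/1000)*w3)
    (g6 : (1/2)*w0 + (309/1000)*w1 + (809/1000)*w2 ≤ (309/1000)*w1 + (1/2)*w2 + (809/1000)*w3)
    (h : (309/1000)*w1 + (1/2)*w2 + (809/1000)*w3 ≤ m) : 21 * (w0 ^ 2 + w1 ^ 2 + w2 ^ 2 + w3 ^ 2) ≤ 25 * m ^ 2 := by
  have z1 : 0 ≤ w1 := le_trans a3 a1
  have z0 : 0 ≤ w0 := le_trans z1 a0
  have hh := cov13 w0 w1 w2 w3 (sub_nonneg.mpr a0) (sub_nonneg.mpr a1) (sub_nonneg.mpr a2) a3 a4 (by linarith only [g0]) (by linarith only [g1]) (by linarith only [g2]) (by linarith only [g5]) (by linarith only [g6])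
  have hp : 0 ≤ (309/1000)*w1 + (1/2)*w2 + (809/1000)*w3 := by positivity
  have hm : ((309/1000)*w1 + (1/2)*w2 + (809/1000)*w3) ^ 2 ≤ m ^ 2 := pow_le_pow_left₀ hp h 2
  linarith only [hh, hm]

/-- The covering inequality for sorted vectors. -/
theorem cov_sorted (w0 w1 w2 w3 m : ℝ) (a0 : w1 ≤ w0) (a1 : w2 ≤ w1) (a2 : w3 ≤ w1) (a3 : 0 ≤ w2) (a4 : 0 ≤ w3)
    (h0 : (1)*w0 ≤ m)
    (h1 : (1/2)*w0 + (1/2)*w1 + (1/2)*w2 + (1/2)*w3 ≤ m)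
    (h2 : (809/1000)*w0 + (1/2)*w1 + (309/1000)*w2 ≤ m)
    (h3 : (809/1000)*w0 + (309/1000)*w1 + (1/2)*w3 ≤ m)
    (h4 : (809/1000)*w0 + (1/2)*w2 + (309/1000)*w3 ≤ m)
    (h5 : (1/2)*w0 + (809/1000)*w1 + (309/1000)*w3 ≤ m)
    (h6 : (1/2)*w0 + (309/1000)*w1 + (809/1000)*w2 ≤ m)
    (h7 : (1/2)*w0 + (309/1000)*w2 + (809/1000)*w3 ≤ m)
    (h8 : (309/1000)*w0 + (809/1000)*w1 + (1/2)*w2 ≤ m)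
    (h9 : (309/1000)*w0 + (1/2)*w1 + (809/1000)*w3 ≤ m)
    (h10 : (309/1000)*w0 + (809/1000)*w2 + (1/2)*w3 ≤ m)
    (h11 : (809/1000)*w1 + (309/1000)*w2 + (1/2)*w3 ≤ m)
    (h12 : (1/2)*w1 + (809/1000)*w2 + (309/1000)*w3 ≤ m)
    (h13 : (309/1000)*w1 + (1/2)*w2 + (809/1000)*w3 ≤ m)
    : 21 * (w0 ^ 2 + w1 ^ 2 + w2 ^ 2 + w3 ^ 2) ≤ 25 * m ^ 2 := by
  obtain ⟨j, hj⟩ := Finite.exists_max (fn w0 w1 w2 w3)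
  match j, hj with
  | 0, hj => exact case0 w0 w1 w2 w3 m a0 a1 a2 a3 a4 (hj 1) (hj 2) (hj 3) (hj 13) h0
  | 1, hj => exact case1 w0 w1 w2 w3 m a0 a1 a2 a3 a4 (hj 2) (hj 3) (hj 5) h1
  | 2, hj => exact case2 w0 w1 w2 w3 m a0 a1 a2 a3 a4 (hj 0) (hj 1) (hj 3) (hj 5) (hj 12) h2
  | 3, hj => exact case3 w0 w1 w2 w3 m a0 a1 a2 a3 a4 (hj 0) (hj 1) (hj 2) (hj 5) (hj 13) h3
  | 4, hj => exact case4 w0 w1 w2 w3 m a0 a1 a2 a3 a4 (hj 0) (hj 1) (hj 2) (hj 3) (hj 5) h4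
  | 5, hj => exact case5 w0 w1 w2 w3 m a0 a1 a2 a3 a4 (hj 0) (hj 1) (hj 2) (hj 3) h5
  | 6, hj => exact case6 w0 w1 w2 w3 m a0 a1 a2 a3 a4 (hj 0) (hj 1) (hj 2) (hj 3) (hj 5) h6
  | 7, hj => exact case7 w0 w1 w2 w3 m a0 a1 a2 a3 a4 (hj 0) (hj 1) (hj 3) (hj 5) (hj 8) h7
  | 8, hj => exact case8 w0 w1 w2 w3 m a0 a1 a2 a3 a4 (hj 0) (hj 1) (hj 2) (hj 3) (hj 13) h8
  | 9, hj => exact case9 w0 w1 w2 w3 m a0 a1 a2 a3 a4 (hj 0) (hj 1) (hj 2) (hj 3) (hj 5) (hj 12) h9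
  | 10, hj => exact case10 w0 w1 w2 w3 m a0 a1 a2 a3 a4 (hj 0) (hj 1) (hj 2) (hj 5) (hj 9) h10
  | 11, hj => exact case11 w0 w1 w2 w3 m a0 a1 a2 a3 a4 (hj 0) (hj 1) (hj 2) (hj 3) h11
  | 12, hj => exact case12 w0 w1 w2 w3 m a0 a1 a2 a3 a4 (hj 0) (hj 1) (hj 2) (hj 3) (hj 5) h12
  | 13, hj => exact case13 w0 w1 w2 w3 m a0 a1 a2 a3 a4 (hj 0) (hj 1) (hj 2) (hj 5) (hj 6) h13

end Pool.Agent.MP_455d73_gt.PQ
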