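import Pool.Agent.Lib.MP_455d73_gt.PQ.F1
import Pool.Agent.Lib.MP_455d73_gt.PQ.F4a

/-!
TASK F4b (medium): the covering inequality for all vectors of `ℝ⁴`.

`quat` is the table of the 120 icosians: row `i` is `2 q_i` (four numbers `a + b φ`). For real `w` let `ip i w = ∑ vl (2 q_i)_r w_r`.
Claim: if `ip i w ≤ 2 m` for all `i < 120` then `21 |w|² ≤ 25 m²`.
The set of the icosians is invariant under all changes of signs and all even permutations of the coordinates. So let `w` be given; the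
even permutations `p` of `Fin 4` and signs allow to replace `w` by `w'` with `w' 0 ≥ w' 1 ≥ w' 2`, `w' 1 ≥ w' 3`, `w' 2, w' 3 ≥ 0`: take the
absolute values, move the largest to position 0, the largest of the others to position 1 (for any two distinct positions there is an even
permutation which brings them to 0 and 1: if necessary exchange the images of the other two). Formally it is perhaps easiest to prove:
for every `w` there are an even permutation `p : Equiv.Perm (Fin 4)` and signs `s : Fin 4 → {1, -1}` such that `w' r = s r * w (p r)` is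
sorted in this sense, and: for every even `p`, all signs `s` and every `i < 120` there is `j < 120` with `quat j r = s r * quat i (p⁻¹ …)`
(a finite check by `decide +kernel`: 12 · 16 · 120 cases; or restrict to the generators of the group: the three sign changes of one
coordinate generate, the 3-cycles (0 1 2), (0 1 3) generate, and show that the hypothesis `∀ i < 120, ip i w ≤ 2 m` is invariant under
each of these 4 + 2 generators, a check of 6 · 120 cases; then sort by finitely many moves).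
For `w'` sorted apply `cov_sorted` with the 14 icosians `(2,0,0,0)`, `(1,1,1,1)` and the even permutations of `(φ, 1, φ⁻¹, 0)` (as `2 q`), using
`809/1000 ≤ φ/2`, `309/1000 ≤ φ⁻¹/2 = (φ-1)/2` and `w' ≥ 0`. (`φ > 1.618`: `φ = (1+√5)/2`, `√5 > 2.236`.)
-/

set_option autoImplicit false

open Finset
open scoped Classical goldenRatio

namespace Pool.Agent.MP_455d73_gt.PQ

/-- The icosians, multiplied by 2; the rows correspond to the rows of `tab`. -/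
def quat : List (List ℤ) := [
  [-2, 0, 0, 0, 0, 0, 0, 0],
  [-1, 0, 0, -1, 0, 0, 1, -1],
  [0, -1, -1, 0, -1, 1, 0, 0],
  [0, -1, 0, 0, -1, 0, 1, -1],
  [-1, 0, -1, 0, -1, 0, -1, 0],
  [0, -1, -1, 0, 1, -1, 0, 0],
  [0, -1, 0, 0, 1, 0, 1, -1],
  [-1, 0, -1, 0, 1, 0, -1, 0],
  [0, -1, -1, 1, 0, 0, -1, 0],
  [1, -1, -1, 0, 0, 0, 0, -1],
  [-1, 0, 0, 0, 1, -1, 0, -1],
  [-1, 0, 0, 0, -1, 1, 0, -1],
  [0, -1, 1, -1, 0, 0, -1, 0],
  [0, -1, 1, -1, 0, 0, 1, 0],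
  [0, -1, 0, 0, -1, 0, -1, 1],
  [-1, 0, 0, -1, 0, 0, -1, 1],
  [-1, 0, -1, 0, -1, 0, 1, 0],
  [-1, 0, 1, -1, 0, -1, 0, 0],
  [1, -1, 0, -1, -1, 0, 0, 0],
  [0, -1, 0, 0, 1, 0, -1, 1],
  [0, -1, -1, 1, 0, 0, 1, 0],
  [0, -1, 1, 0, -1, 1, 0, 0],
  [0, -1, 1, 0, 1, -1, 0, 0],
  [-1, 0, -1, 0, 1, 0, 1, 0],
  [-1, 0, 1, -1, 0, 1, 0, 0],
  [1, -1, 0, -1, 1, 0, 0, 0],
  [-1, 0, 0, 0, -1, 1, 0, 1],
  [-1, 0, -1, 1, 0, 1, 0, 0],
  [-1, 0, 0, 0, 1, -1, 0, 1],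
  [-1, 0, 1, 0, 1, 0, -1, 0],
  [-1, 0, -1, 1, 0, -1, 0, 0],
  [-1, 0, 1, 0, -1, 0, -1, 0],
  [1, -1, -1, 0, 0, 0, 0, 1],
  [1, -1, 0, 0, 0, 1, -1, 0],
  [1, -1, 0, 0, 0, -1, -1, 0],
  [0, 0, -2, 0, 0, 0, 0, 0],
  [0, 0, 0, -1, -1, 1, -1, 0],
  [0, 0, 0, -1, 1, -1, -1, 0],
  [-1, 0, 1, 0, 1, 0, 1, 0],
  [-1, 0, 1, 0, -1, 0, 1, 0],
  [-1, 0, 0, 1, 0, 0, 1, -1],
  [1, -1, 0, 0, 0, 1, 1, 0],
  [1, -1, 0, 0, 0, -1, 1, 0],
  [1, -1, 1, 0, 0, 0, 0, -1],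
  [0, 0, 0, -1, -1, 1, 1, 0],
  [0, 0, -1, 0, 0, 1, 1, -1],
  [0, 0, 0, -1, 1, -1, 1, 0],
  [0, 0, 1, -1, 1, 0, 0, -1],
  [0, 0, -1, 0, 0, -1, 1, -1],
  [0, 0, 1, -1, -1, 0, 0, -1],
  [-1, 0, 0, 1, 0, 0, -1, 1],
  [0, 0, -1, 0, 0, 1, -1, 1],
  [0, 0, -1, 0, 0, -1, -1, 1],
  [0, 0, 0, 0, 0, 0, -2, 0],
  [1, -1, 1, 0, 0, 0, 0, 1],
  [1, -1, 0, 1, 1, 0, 0, 0],
  [1, -1, 0, 1, -1, 0, 0, 0],
  [0, 0, 1, -1, 1, 0, 0, 1],
  [0, 0, 0, 0, 2, 0, 0, 0],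
  [0, 0, 1, -1, -1, 0, 0, 1],
  [0, 0, -1, 1, 1, 0, 0, -1],
  [0, 0, 0, 0, -2, 0, 0, 0],
  [0, 0, -1, 1, -1, 0, 0, -1],
  [-1, 1, 0, -1, 1, 0, 0, 0],
  [-1, 1, 0, -1, -1, 0, 0, 0],
  [-1, 1, -1, 0, 0, 0, 0, -1],
  [0, 0, 0, 0, 0, 0, 2, 0],
  [0, 0, 1, 0, 0, 1, 1, -1],
  [0, 0, 1, 0, 0, -1, 1, -1],
  [1, 0, 0, -1, 0, 0, 1, -1],
  [0, 0, -1, 1, 1, 0, 0, 1],
  [0, 0, 1, 0, 0, 1, -1, 1],
  [0, 0, -1, 1, -1, 0, 0, 1],
  [0, 0, 0, 1, -1, 1, -1, 0],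
  [0, 0, 1, 0, 0, -1, -1, 1],
  [0, 0, 0, 1, 1, -1, -1, 0],
  [-1, 1, -1, 0, 0, 0, 0, 1],
  [-1, 1, 0, 0, 0, 1, -1, 0],
  [-1, 1, 0, 0, 0, -1, -1, 0],
  [1, 0, 0, -1, 0, 0, -1, 1],
  [1, 0, -1, 0, 1, 0, -1, 0],
  [1, 0, -1, 0, -1, 0, -1, 0],
  [0, 0, 0, 1, -1, 1, 1, 0],
  [0, 0, 0, 1, 1, -1, 1, 0],
  [0, 0, 2, 0, 0, 0, 0, 0],
  [-1, 1, 0, 0, 0, 1, 1, 0],
  [-1, 1, 0, 0, 0, -1, 1, 0],
  [-1, 1, 1, 0, 0, 0, 0, -1],
  [1, 0, -1, 0, 1, 0, 1, 0],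
  [1, 0, 1, -1, 0, 1, 0, 0],
  [1, 0, -1, 0, -1, 0, 1, 0],
  [1, 0, 0, 0, -1, 1, 0, -1],
  [1, 0, 1, -1, 0, -1, 0, 0],
  [1, 0, 0, 0, 1, -1, 0, -1],
  [-1, 1, 1, 0, 0, 0, 0, 1],
  [-1, 1, 0, 1, 1, 0, 0, 0],
  [-1, 1, 0, 1, -1, 0, 0, 0],
  [1, 0, 0, 0, -1, 1, 0, 1],
  [1, 0, -1, 1, 0, 1, 0, 0],
  [1, 0, 0, 0, 1, -1, 0, 1],
  [1, 0, 1, 0, 1, 0, -1, 0],
  [1, 0, -1, 1, 0, -1, 0, 0],
  [1, 0, 1, 0, -1, 0, -1, 0],
  [0, 1, -1, 0, -1, 1, 0, 0],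
  [0, 1, -1, 0, 1, -1, 0, 0],
  [0, 1, 1, -1, 0, 0, -1, 0],
  [1, 0, 1, 0, 1, 0, 1, 0],
  [1, 0, 1, 0, -1, 0, 1, 0],
  [1, 0, 0, 1, 0, 0, 1, -1],
  [0, 1, 1, -1, 0, 0, 1, 0],
  [0, 1, 0, 0, 1, 0, 1, -1],
  [0, 1, 0, 0, -1, 0, 1, -1],
  [1, 0, 0, 1, 0, 0, -1, 1],
  [0, 1, 0, 0, 1, 0, -1, 1],
  [0, 1, 0, 0, -1, 0, -1, 1],
  [0, 1, -1, 1, 0, 0, -1, 0],
  [0, 1, -1, 1, 0, 0, 1, 0],
  [0, 1, 1, 0, -1, 1, 0, 0],
  [0, 1, 1, 0, 1, -1, 0, 0],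
  [2, 0, 0, 0, 0, 0, 0, 0]
]

/-- Coordinate `r` of `2 q_i`. -/
def qc (i r : ℕ) : ℤ × ℤ := ((quat.getD i []).getD (2 * r) 0, (quat.getD i []).getD (2 * r + 1) 0)

private def HH (a b c d m : ℝ) : Prop :=
  ∀ i < 120, vl (qc i 0) * a + vl (qc i 1) * b + vl (qc i 2) * c + vl (qc i 3) * d ≤ 2 * m

private theorem vl_neg (x y : ℤ × ℤ) (h : x = (-y.1, -y.2)) : vl x = - vl y := by
  subst h
  unfold vl
  push_cast
  ring

set_option maxRecDepth 100000 in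
private theorem chk_n0 : ∀ i < 120, ∃ j < 120, qc j 0 = (-(qc i 0).1, -(qc i 0).2) ∧ qc j 1 = qc i 1 ∧ qc j 2 = qc i 2 ∧ qc j 3 = qc i 3 := by
  decide +kernel

private theorem HH_n0 {a b c d m : ℝ} (h : HH a b c d m) : HH (-a) b c d m := by
  intro i hi
  obtain ⟨j, hj, e0, e1, e2, e3⟩ := chk_n0 i hi
  have h1 := h j hj
  rw [e1, e2, e3] at h1
  rw [vl_neg _ _ e0] at h1
  linarith

set_option maxRecDepth 100000 in
private theorem chk_n1 : ∀ i < 120, ∃ j < 120, qc j 0 = qc i 0 ∧ qc j 1 = (-(qc i 1).1, -(qc i 1).2) ∧ qc j 2 = qc i 2 ∧ qc j 3 = qc i 3 := by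
  decide +kernel

private theorem HH_n1 {a b c d m : ℝ} (h : HH a b c d m) : HH a (-b) c d m := by
  intro i hi
  obtain ⟨j, hj, e0, e1, e2, e3⟩ := chk_n1 i hi
  have h1 := h j hj
  rw [e0, e2, e3] at h1
  rw [vl_neg _ _ e1] at h1
  linarith

set_option maxRecDepth 100000 in
private theorem chk_n2 : ∀ i < 120, ∃ j < 120, qc j 0 = qc i 0 ∧ qc j 1 = qc i 1 ∧ qc j 2 = (-(qc i 2).1, -(qc i 2).2) ∧ qc j 3 = qc i 3 := by
  decide +kernel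

private theorem HH_n2 {a b c d m : ℝ} (h : HH a b c d m) : HH a b (-c) d m := by
  intro i hi
  obtain ⟨j, hj, e0, e1, e2, e3⟩ := chk_n2 i hi
  have h1 := h j hj
  rw [e0, e1, e3] at h1
  rw [vl_neg _ _ e2] at h1
  linarith

set_option maxRecDepth 100000 in
private theorem chk_n3 : ∀ i < 120, ∃ j < 120, qc j 0 = qc i 0 ∧ qc j 1 = qc i 1 ∧ qc j 2 = qc i 2 ∧ qc j 3 = (-(qc i 3).1, -(qc i 3).2) := by
  decide +kernel

private theorem HH_n3 {a b c d m : ℝ} (h : HH a b c d m) : HH a b c (-d) m := by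
  intro i hi
  obtain ⟨j, hj, e0, e1, e2, e3⟩ := chk_n3 i hi
  have h1 := h j hj
  rw [e0, e1, e2] at h1
  rw [vl_neg _ _ e3] at h1
  linarith

set_option maxRecDepth 100000 in
private theorem chk_c0 : ∀ i < 120, ∃ j < 120, qc j 1 = qc i 0 ∧ qc j 2 = qc i 1 ∧ qc j 0 = qc i 2 ∧ qc j 3 = qc i 3 := by
  decide +kernel

private theorem HH_c0 {a b c d m : ℝ} (h : HH a b c d m) : HH b c a d m := by
  intro i hi
  obtain ⟨j, hj, e0, e1, e2, e3⟩ := chk_c0 i hi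
  have h1 := h j hj
  rw [e0, e1, e2, e3] at h1
  linarith

set_option maxRecDepth 100000 in
private theorem chk_c1 : ∀ i < 120, ∃ j < 120, qc j 0 = qc i 0 ∧ qc j 2 = qc i 1 ∧ qc j 3 = qc i 2 ∧ qc j 1 = qc i 3 := by
  decide +kernel

private theorem HH_c1 {a b c d m : ℝ} (h : HH a b c d m) : HH a c d b m := by
  intro i hi
  obtain ⟨j, hj, e0, e1, e2, e3⟩ := chk_c1 i hi
  have h1 := h j hj
  rw [e0, e1, e2, e3] at h1
  linarith

private theorem phi_lb : (1618 / 1000 : ℝ) ≤ φ := by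
  have h : (2236 / 1000 : ℝ) ≤ √5 := by
    apply Real.le_sqrt_of_sq_le
    norm_num
  have e : φ = (1 + √5) / 2 := rfl
  rw [e]
  linarith

private theorem chk_row0 : qc 119 0 = (2, 0) ∧ qc 119 1 = (0, 0) ∧ qc 119 2 = (0, 0) ∧ qc 119 3 = (0, 0) := by
  decide +kernel

private theorem chk_row1 : qc 106 0 = (1, 0) ∧ qc 106 1 = (1, 0) ∧ qc 106 2 = (1, 0) ∧ qc 106 3 = (1, 0) := by
  decide +kernel

private theorem chk_row2 : qc 117 0 = (0, 1) ∧ qc 117 1 = (1, 0) ∧ qc 117 2 = (-1, 1) ∧ qc 117 3 = (0, 0) := by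
  decide +kernel

private theorem chk_row3 : qc 116 0 = (0, 1) ∧ qc 116 1 = (-1, 1) ∧ qc 116 2 = (0, 0) ∧ qc 116 3 = (1, 0) := by
  decide +kernel

private theorem chk_row4 : qc 113 0 = (0, 1) ∧ qc 113 1 = (0, 0) ∧ qc 113 2 = (1, 0) ∧ qc 113 3 = (-1, 1) := by
  decide +kernel

private theorem chk_row5 : qc 112 0 = (1, 0) ∧ qc 112 1 = (0, 1) ∧ qc 112 2 = (0, 0) ∧ qc 112 3 = (-1, 1) := by
  decide +kernel

private theorem chk_row6 : qc 98 0 = (1, 0) ∧ qc 98 1 = (-1, 1) ∧ qc 98 2 = (0, 1) ∧ qc 98 3 = (0, 0) := by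
  decide +kernel

private theorem chk_row7 : qc 97 0 = (1, 0) ∧ qc 97 1 = (0, 0) ∧ qc 97 2 = (-1, 1) ∧ qc 97 3 = (0, 1) := by
  decide +kernel

private theorem chk_row8 : qc 95 0 = (-1, 1) ∧ qc 95 1 = (0, 1) ∧ qc 95 2 = (1, 0) ∧ qc 95 3 = (0, 0) := by
  decide +kernel

private theorem chk_row9 : qc 94 0 = (-1, 1) ∧ qc 94 1 = (1, 0) ∧ qc 94 2 = (0, 0) ∧ qc 94 3 = (0, 1) := by
  decide +kernel

private theorem chk_row10 : qc 85 0 = (-1, 1) ∧ qc 85 1 = (0, 0) ∧ qc 85 2 = (0, 1) ∧ qc 85 3 = (1, 0) := by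
  decide +kernel

private theorem chk_row11 : qc 82 0 = (0, 0) ∧ qc 82 1 = (0, 1) ∧ qc 82 2 = (-1, 1) ∧ qc 82 3 = (1, 0) := by
  decide +kernel

private theorem chk_row12 : qc 71 0 = (0, 0) ∧ qc 71 1 = (1, 0) ∧ qc 71 2 = (0, 1) ∧ qc 71 3 = (-1, 1) := by
  decide +kernel

private theorem chk_row13 : qc 70 0 = (0, 0) ∧ qc 70 1 = (-1, 1) ∧ qc 70 2 = (1, 0) ∧ qc 70 3 = (0, 1) := by
  decide +kernel

private theorem cov_ord {a b c d m : ℝ} (h : HH a b c d m) (h0 : b ≤ a) (h1 : c ≤ b) (h2 : d ≤ b) (h3 : 0 ≤ c) (h4 : 0 ≤ d) :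
    21 * (a ^ 2 + b ^ 2 + c ^ 2 + d ^ 2) ≤ 25 * m ^ 2 := by
  have hb : 0 ≤ b := le_trans h3 h1
  have ha : 0 ≤ a := le_trans hb h0
  have hphi := phi_lb
  obtain ⟨r0_0, r0_1, r0_2, r0_3⟩ := chk_row0
  obtain ⟨r1_0, r1_1, r1_2, r1_3⟩ := chk_row1
  obtain ⟨r2_0, r2_1, r2_2, r2_3⟩ := chk_row2
  obtain ⟨r3_0, r3_1, r3_2, r3_3⟩ := chk_row3
  obtain ⟨r4_0, r4_1, r4_2, r4_3⟩ := chk_row4
  obtain ⟨r5_0, r5_1, r5_2, r5_3⟩ := chk_row5
  obtain ⟨r6_0, r6_1, r6_2, r6_3⟩ := chk_row6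
  obtain ⟨r7_0, r7_1, r7_2, r7_3⟩ := chk_row7
  obtain ⟨r8_0, r8_1, r8_2, r8_3⟩ := chk_row8
  obtain ⟨r9_0, r9_1, r9_2, r9_3⟩ := chk_row9
  obtain ⟨r10_0, r10_1, r10_2, r10_3⟩ := chk_row10
  obtain ⟨r11_0, r11_1, r11_2, r11_3⟩ := chk_row11
  obtain ⟨r12_0, r12_1, r12_2, r12_3⟩ := chk_row12
  obtain ⟨r13_0, r13_1, r13_2, r13_3⟩ := chk_row13
  have pa : 0 ≤ (φ - 1618 / 1000) * a := mul_nonneg (by linarith) ha
  have pb : 0 ≤ (φ - 1618 / 1000) * b := mul_nonneg (by linarith) hb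
  have pc : 0 ≤ (φ - 1618 / 1000) * c := mul_nonneg (by linarith) h3
  have pd : 0 ≤ (φ - 1618 / 1000) * d := mul_nonneg (by linarith) h4
  have g0 := h 119 (by norm_num)
  rw [r0_0, r0_1, r0_2, r0_3] at g0
  simp only [vl] at g0
  push_cast at g0
  have g1 := h 106 (by norm_num)
  rw [r1_0, r1_1, r1_2, r1_3] at g1
  simp only [vl] at g1
  push_cast at g1
  have g2 := h 117 (by norm_num)
  rw [r2_0, r2_1, r2_2, r2_3] at g2
  simp only [vl] at g2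
  push_cast at g2
  have g3 := h 116 (by norm_num)
  rw [r3_0, r3_1, r3_2, r3_3] at g3
  simp only [vl] at g3
  push_cast at g3
  have g4 := h 113 (by norm_num)
  rw [r4_0, r4_1, r4_2, r4_3] at g4
  simp only [vl] at g4
  push_cast at g4
  have g5 := h 112 (by norm_num)
  rw [r5_0, r5_1, r5_2, r5_3] at g5
  simp only [vl] at g5
  push_cast at g5
  have g6 := h 98 (by norm_num)
  rw [r6_0, r6_1, r6_2, r6_3] at g6
  simp only [vl] at g6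
  push_cast at g6
  have g7 := h 97 (by norm_num)
  rw [r7_0, r7_1, r7_2, r7_3] at g7
  simp only [vl] at g7
  push_cast at g7
  have g8 := h 95 (by norm_num)
  rw [r8_0, r8_1, r8_2, r8_3] at g8
  simp only [vl] at g8
  push_cast at g8
  have g9 := h 94 (by norm_num)
  rw [r9_0, r9_1, r9_2, r9_3] at g9
  simp only [vl] at g9
  push_cast at g9
  have g10 := h 85 (by norm_num)
  rw [r10_0, r10_1, r10_2, r10_3] at g10
  simp only [vl] at g10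
  push_cast at g10
  have g11 := h 82 (by norm_num)
  rw [r11_0, r11_1, r11_2, r11_3] at g11
  simp only [vl] at g11
  push_cast at g11
  have g12 := h 71 (by norm_num)
  rw [r12_0, r12_1, r12_2, r12_3] at g12
  simp only [vl] at g12
  push_cast at g12
  have g13 := h 70 (by norm_num)
  rw [r13_0, r13_1, r13_2, r13_3] at g13
  simp only [vl] at g13
  push_cast at g13
  exact cov_sorted a b c d m h0 h1 h2 h3 h4 (by linarith) (by linarith) (by linarith) (by linarith) (by linarith)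
    (by linarith) (by linarith) (by linarith) (by linarith) (by linarith) (by linarith) (by linarith) (by linarith)
    (by linarith)

private theorem cov_b {a b c d m : ℝ} (h : HH a b c d m) (h0 : b ≤ a) (h1 : c ≤ a) (h2 : d ≤ a) (hb : 0 ≤ b) (hc : 0 ≤ c)
    (hd : 0 ≤ d) : 21 * (a ^ 2 + b ^ 2 + c ^ 2 + d ^ 2) ≤ 25 * m ^ 2 := by
  rcases le_total b c with hbc | hbc
  · rcases le_total c d with hcd | hcd
    · -- `d` is the largest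
      have h' := HH_c1 (HH_c1 h)
      have := cov_ord h' h2 (le_trans hbc hcd) hcd hb hc
      linarith
    · have h' := HH_c1 h
      have := cov_ord h' h1 hcd hbc hd hb
      linarith
  · rcases le_total b d with hbd | hbd
    · have h' := HH_c1 (HH_c1 h)
      have := cov_ord h' h2 hbd (le_trans hbc hbd) hb hc
      linarith
    · exact cov_ord h h0 hbc hbd hc hd

private theorem cov_c {a b c d m : ℝ} (h : HH a b c d m) (ha : 0 ≤ a) (hb : 0 ≤ b) (hc : 0 ≤ c)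
    (hd : 0 ≤ d) : 21 * (a ^ 2 + b ^ 2 + c ^ 2 + d ^ 2) ≤ 25 * m ^ 2 := by
  have key : ∀ {a b c d : ℝ}, HH a b c d m → 0 ≤ a → 0 ≤ b → 0 ≤ c → 0 ≤ d → d ≤ a ∨ d ≤ b ∨ d ≤ c →
      21 * (a ^ 2 + b ^ 2 + c ^ 2 + d ^ 2) ≤ 25 * m ^ 2 := by
    intro a b c d h ha hb hc hd ho
    rcases le_total a b with hab | hab
    · rcases le_total b c with hbc | hbc
      · -- `c` is the largest of the three
        have hdc : d ≤ c := by
          rcases ho with h1 | h1 | h1 <;> linarith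
        have h' := HH_c0 (HH_c0 h)
        have := cov_b h' (le_trans hab hbc) hbc hdc ha hb hd
        linarith
      · have hdb : d ≤ b := by
          rcases ho with h1 | h1 | h1 <;> linarith
        have h' := HH_c0 h
        have := cov_b h' hbc hab hdb hc ha hd
        linarith
    · rcases le_total a c with hac | hac
      · have hdc : d ≤ c := by
          rcases ho with h1 | h1 | h1 <;> linarith
        have h' := HH_c0 (HH_c0 h)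
        have := cov_b h' hac (le_trans hab hac) hdc ha hb hd
        linarith
      · have hda : d ≤ a := by
          rcases ho with h1 | h1 | h1 <;> linarith
        exact cov_b h hab hac hda hb hc hd
  by_cases ho : d ≤ a ∨ d ≤ b ∨ d ≤ c
  · exact key h ha hb hc hd ho
  · push Not at ho
    have h' := HH_c1 h
    have := key h' ha hc hd hb (Or.inr (Or.inr ho.2.1.le))
    linarith

theorem cov_all (w : Fin 4 → ℝ) (m : ℝ)
    (h : ∀ i < 120, ∑ r : Fin 4, vl (qc i r) * w r ≤ 2 * m) : 21 * ∑ r, w r ^ 2 ≤ 25 * m ^ 2 := by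
  have h1 : HH (w 0) (w 1) (w 2) (w 3) m := by
    intro i hi
    have h2 := h i hi
    rw [Fin.sum_univ_four] at h2
    exact h2
  rw [Fin.sum_univ_four]
  have h2 : ∃ a, 0 ≤ a ∧ a ^ 2 = w 0 ^ 2 ∧ HH a (w 1) (w 2) (w 3) m := by
    rcases le_total 0 (w 0) with h0 | h0
    · exact ⟨w 0, h0, rfl, h1⟩
    · exact ⟨-w 0, by linarith, by ring, HH_n0 h1⟩
  obtain ⟨a, ha, ea, ga⟩ := h2
  have h3 : ∃ b, 0 ≤ b ∧ b ^ 2 = w 1 ^ 2 ∧ HH a b (w 2) (w 3) m := by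
    rcases le_total 0 (w 1) with h0 | h0
    · exact ⟨w 1, h0, rfl, ga⟩
    · exact ⟨-w 1, by linarith, by ring, HH_n1 ga⟩
  obtain ⟨b, hb, eb, gb⟩ := h3
  have h4 : ∃ c, 0 ≤ c ∧ c ^ 2 = w 2 ^ 2 ∧ HH a b c (w 3) m := by
    rcases le_total 0 (w 2) with h0 | h0
    · exact ⟨w 2, h0, rfl, gb⟩
    · exact ⟨-w 2, by linarith, by ring, HH_n2 gb⟩
  obtain ⟨c, hc, ec, gc⟩ := h4
  have h5 : ∃ d, 0 ≤ d ∧ d ^ 2 = w 3 ^ 2 ∧ HH a b c d m := by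
    rcases le_total 0 (w 3) with h0 | h0
    · exact ⟨w 3, h0, rfl, gc⟩
    · exact ⟨-w 3, by linarith, by ring, HH_n3 gc⟩
  obtain ⟨d, hd, ed, gd⟩ := h5
  have h6 := cov_c gd ha hb hc hd
  rw [ea, eb, ec, ed] at h6
  exact h6

end Pool.Agent.MP_455d73_gt.PQ
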