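import Pool.Agent.Lib.MP_455d73_gt.PQ.Chart

/-!
Campaign PQ: words in the generators (definition only, proved).
-/

set_option autoImplicit false

open Finset
open scoped Classical

namespace Pool.Agent.MP_455d73_gt.PQ

variable {n : ℕ} {I S : Type}

/-- The product of the generators `(R.s i, σ i)` of a word. -/
def RA.wd (R : RA n I) (σ : I → Equiv.Perm S) (l : List I) : Equiv.Perm (Hyp n) × Equiv.Perm S :=
  (l.map fun i => (R.s i, σ i)).prod

end Pool.Agent.MP_455d73_gt.PQ
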