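import Pool.Agent.Lib.MP_455d73_gt.PQ.Defs

/-!
Campaign PQ: algebra of the Lorentz form, reflections, right-angled systems (proved).
-/

set_option autoImplicit false

open Finset
open scoped goldenRatio

namespace Pool.Agent.MP_455d73_gt.PQ

variable {n : ℕ}

theorem lor_comm (x y : Mk n) : lor x y = lor y x := by
  simp [lor, mul_comm]

theorem lor_add_left (x y z : Mk n) : lor (x + y) z = lor x z + lor y z := by
  simp [lor, add_mul, Finset.sum_add_distrib]; ring

theorem lor_smul_left (r : ℝ) (x y : Mk n) : lor (r • x) y = r * lor x y := by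
  simp [lor, mul_sub, Finset.mul_sum, mul_assoc]

theorem lor_add_right (x y z : Mk n) : lor x (y + z) = lor x y + lor x z := by
  rw [lor_comm, lor_add_left, lor_comm y x, lor_comm z x]

theorem lor_smul_right (r : ℝ) (x y : Mk n) : lor x (r • y) = r * lor x y := by
  rw [lor_comm, lor_smul_left, lor_comm]

theorem lor_neg_left (x y : Mk n) : lor (-x) y = - lor x y := by
  have := lor_smul_left (-1) x y
  simpa using this

theorem lor_neg_right (x y : Mk n) : lor x (-y) = - lor x y := by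
  have := lor_smul_right (-1) x y
  simpa using this

theorem lor_sub_left (x y z : Mk n) : lor (x - y) z = lor x z - lor y z := by
  rw [sub_eq_add_neg, lor_add_left, lor_neg_left]; ring

theorem lor_sub_right (x y z : Mk n) : lor x (y - z) = lor x y - lor x z := by
  rw [sub_eq_add_neg, lor_add_right, lor_neg_right]; ring

theorem lor_zero_left (x : Mk n) : lor 0 x = 0 := by simp [lor]

theorem lor_sum_left {α : Type} (s : Finset α) (f : α → Mk n) (y : Mk n) :
    lor (∑ a ∈ s, f a) y = ∑ a ∈ s, lor (f a) y := by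
  classical
  induction s using Finset.induction_on with
  | empty => simp [lor_zero_left]
  | insert a s ha ih => rw [Finset.sum_insert ha, Finset.sum_insert ha, lor_add_left, ih]

theorem lor_sum_right {α : Type} (s : Finset α) (f : α → Mk n) (y : Mk n) :
    lor y (∑ a ∈ s, f a) = ∑ a ∈ s, lor y (f a) := by
  rw [lor_comm, lor_sum_left]
  exact Finset.sum_congr rfl (fun a _ => lor_comm _ _)

theorem continuous_lor : Continuous (fun p : Mk n × Mk n => lor p.1 p.2) := by
  unfold lor
  fun_prop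

/-- A future timelike and a future causal vector have negative product. -/
theorem lor_neg_of_causal (x y : Mk n) (hx : lor x x < 0) (hx2 : 0 < x.2) (hy : lor y y ≤ 0)
    (hy2 : 0 < y.2) : lor x y < 0 := by
  have hcs : (∑ i, x.1 i * y.1 i) ^ 2 ≤ (∑ i, x.1 i ^ 2) * ∑ i, y.1 i ^ 2 :=
    Finset.sum_mul_sq_le_sq_mul_sq _ _ _
  have hx' : ∑ i, x.1 i ^ 2 < x.2 ^ 2 := by
    have : lor x x = ∑ i, x.1 i ^ 2 - x.2 ^ 2 := by
      simp [lor, sq]
    linarith
  have hy' : ∑ i, y.1 i ^ 2 ≤ y.2 ^ 2 := by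
    have : lor y y = ∑ i, y.1 i ^ 2 - y.2 ^ 2 := by
      simp [lor, sq]
    linarith
  have h0 : 0 ≤ ∑ i, y.1 i ^ 2 := Finset.sum_nonneg (fun i _ => sq_nonneg _)
  have h1 : 0 ≤ ∑ i, x.1 i ^ 2 := Finset.sum_nonneg (fun i _ => sq_nonneg _)
  have hlt : (∑ i, x.1 i * y.1 i) ^ 2 < (x.2 * y.2) ^ 2 := by
    calc _ ≤ (∑ i, x.1 i ^ 2) * ∑ i, y.1 i ^ 2 := hcs
      _ ≤ (∑ i, x.1 i ^ 2) * y.2 ^ 2 := mul_le_mul_of_nonneg_left hy' h1
      _ < x.2 ^ 2 * y.2 ^ 2 := mul_lt_mul_of_pos_right hx' (by positivity)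
      _ = (x.2 * y.2) ^ 2 := by ring
  have := abs_lt_of_sq_lt_sq hlt (by positivity)
  have h2 := (abs_lt.mp this).2
  unfold lor
  linarith

instance : Nonempty (Hyp n) := ⟨⟨((fun _ => 0), 1), by simp [lor]⟩⟩

theorem Hyp.lor_self (x : Hyp n) : lor x.1 x.1 = -1 := x.2.1

theorem Hyp.lor_lt (x y : Hyp n) : lor x.1 y.1 < 0 :=
  lor_neg_of_causal _ _ (by rw [x.2.1]; norm_num) x.2.2 (by rw [y.2.1]; norm_num) y.2.2

/-- The reflection in the hyperplane orthogonal to `e`, on vectors. -/
def reflFun (e x : Mk n) : Mk n := x - (2 * lor x e) • e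

theorem lor_reflFun (e : Mk n) (he : lor e e = 1) (x y : Mk n) :
    lor (reflFun e x) (reflFun e y) = lor x y := by
  unfold reflFun
  simp only [lor_sub_left, lor_sub_right, lor_smul_left, lor_smul_right, he, lor_comm e y]
  ring

theorem reflFun_reflFun (e : Mk n) (he : lor e e = 1) (x : Mk n) :
    reflFun e (reflFun e x) = x := by
  unfold reflFun
  simp only [lor_sub_left, lor_smul_left, he]
  module

theorem reflFun_mem (e : Mk n) (he : lor e e = 1) (x : Hyp n) :
    lor (reflFun e x.1) (reflFun e x.1) = -1 ∧ 0 < (reflFun e x.1).2 := by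
  have h1 : lor (reflFun e x.1) (reflFun e x.1) = -1 := by rw [lor_reflFun e he, x.2.1]
  refine ⟨h1, ?_⟩
  have h2 : lor x.1 (reflFun e x.1) < 0 := by
    unfold reflFun
    rw [lor_sub_right, lor_smul_right, x.2.1]
    nlinarith [sq_nonneg (lor x.1 e)]
  by_contra hneg
  push Not at hneg
  rcases hneg.lt_or_eq with h | h
  · have := lor_neg_of_causal x.1 (-(reflFun e x.1)) (by rw [x.2.1]; norm_num) x.2.2
      (by rw [lor_neg_left, lor_neg_right, h1]; norm_num) (by simpa using h)
    rw [lor_neg_right] at this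
    linarith
  · have h3 : lor (reflFun e x.1) (reflFun e x.1) = ∑ i, (reflFun e x.1).1 i ^ 2 := by
      simp only [lor, h, mul_zero, sub_zero, sq]
    rw [h1] at h3
    have : 0 ≤ ∑ i, (reflFun e x.1).1 i ^ 2 := Finset.sum_nonneg (fun i _ => sq_nonneg _)
    linarith

/-- The reflection as a permutation of hyperbolic space. -/
def refl (e : Mk n) (he : lor e e = 1) : Equiv.Perm (Hyp n) where
  toFun x := ⟨reflFun e x.1, reflFun_mem e he x⟩
  invFun x := ⟨reflFun e x.1, reflFun_mem e he x⟩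
  left_inv x := Subtype.ext (reflFun_reflFun e he x.1)
  right_inv x := Subtype.ext (reflFun_reflFun e he x.1)

@[simp] theorem refl_coe (e : Mk n) (he : lor e e = 1) (x : Hyp n) :
    (refl e he x).1 = x.1 - (2 * lor x.1 e) • e := rfl

/-- A right-angled system: the outer unit normals `e i` of a compact polytope in hyperbolic space with an
interior point `ctr`, any two of whose walls are equal, orthogonal or disjoint. -/
structure RA (n : ℕ) (I : Type) where
  e : I → Mk n
  unit : ∀ i, lor (e i) (e i) = 1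
  gram : ∀ i j, i ≠ j → lor (e i) (e j) = 0 ∨ lor (e i) (e j) ≤ -1
  ctr : Hyp n
  ctr_neg : ∀ i, lor ctr.1 (e i) < 0
  cpt : IsCompact {x : Hyp n | ∀ i, lor x.1 (e i) ≤ 0}

variable {I : Type}

/-- The polytope. -/
def RA.P (R : RA n I) : Set (Hyp n) := {x | ∀ i, lor x.1 (R.e i) ≤ 0}

/-- The reflections in the walls. -/
def RA.s (R : RA n I) (i : I) : Equiv.Perm (Hyp n) := refl (R.e i) (R.unit i)

/-- The reflection group. -/
def RA.G (R : RA n I) : Subgroup (Equiv.Perm (Hyp n)) := Subgroup.closure (Set.range R.s)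

/-- The involutions `σ i` of `S` satisfy the relations of the walls. -/
def RA.Compat (R : RA n I) {S : Type} (σ : I → Equiv.Perm S) : Prop :=
  (∀ i, σ i * σ i = 1) ∧ ∀ i j, lor (R.e i) (R.e j) = 0 → σ i * σ j = σ j * σ i

/-- The group generated by the pairs (reflection, involution). -/
def RA.GS (R : RA n I) {S : Type} (σ : I → Equiv.Perm S) :
    Subgroup (Equiv.Perm (Hyp n) × Equiv.Perm S) :=
  Subgroup.closure (Set.range fun i => (R.s i, σ i))

/-- The part of `RA.GS` generated by the walls through `x`. -/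
def RA.GSx (R : RA n I) {S : Type} (σ : I → Equiv.Perm S) (x : Hyp n) :
    Subgroup (Equiv.Perm (Hyp n) × Equiv.Perm S) :=
  Subgroup.closure {g | ∃ i, lor x.1 (R.e i) = 0 ∧ g = (R.s i, σ i)}

/-- The stabiliser of `s₀` in the reflection group acting on `S` by `σ`. -/
def RA.stab (R : RA n I) {S : Type} (σ : I → Equiv.Perm S) (s₀ : S) :
    Subgroup (Equiv.Perm (Hyp n)) where
  carrier := {g | ∃ π : Equiv.Perm S, (g, π) ∈ R.GS σ ∧ π s₀ = s₀}
  mul_mem' := by
    rintro a b ⟨π, h, h0⟩ ⟨π', h', h0'⟩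
    exact ⟨π * π', (R.GS σ).mul_mem h h', by rw [Equiv.Perm.mul_apply, h0', h0]⟩
  one_mem' := ⟨1, (R.GS σ).one_mem, rfl⟩
  inv_mem' := by
    rintro a ⟨π, h, h0⟩
    exact ⟨π⁻¹, (R.GS σ).inv_mem h, by rw [Equiv.Perm.inv_eq_iff_eq, h0]⟩

end Pool.Agent.MP_455d73_gt.PQ
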