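import Pool.Agent.Lib.MP_455d73_gt.PQ.Base

/-!
Campaign PQ: definitions for the chart of a polytope, its barycentric subdivision, and the polyhedral model.
-/

set_option autoImplicit false

open Finset
open scoped Classical

namespace Pool.Agent.MP_455d73_gt.PQ

noncomputable section

variable {n : ℕ} {I S : Type}

/-- The chart of hyperbolic space (Klein model). -/
def kl (x : Hyp n) : Fin n → ℝ := fun j => x.1.1 j / x.1.2

theorem up_mem (k : Fin n → ℝ) (h : ∑ j, k j ^ 2 < 1) :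
    lor (((√(1 - ∑ j, k j ^ 2))⁻¹ • ((k, 1) : Mk n)) : Mk n) ((√(1 - ∑ j, k j ^ 2))⁻¹ • ((k, 1) : Mk n)) = -1 ∧
      0 < (((√(1 - ∑ j, k j ^ 2))⁻¹ • ((k, 1) : Mk n)) : Mk n).2 := by
  have h0 : 0 < 1 - ∑ j, k j ^ 2 := by linarith
  have h1 : 0 < √(1 - ∑ j, k j ^ 2) := Real.sqrt_pos.mpr h0
  constructor
  · rw [lor_smul_left, lor_smul_right]
    have : lor ((k, 1) : Mk n) (k, 1) = - (√(1 - ∑ j, k j ^ 2) ^ 2) := by
      rw [Real.sq_sqrt h0.le]
      simp [lor, sq]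
    rw [this]
    field_simp
  · simp only [Prod.smul_snd, smul_eq_mul, mul_one]
    positivity

/-- The inverse of the chart, on the open unit ball (a junk value outside). -/
def up (k : Fin n → ℝ) : Hyp n :=
  if h : ∑ j, k j ^ 2 < 1 then ⟨(√(1 - ∑ j, k j ^ 2))⁻¹ • ((k, 1) : Mk n), up_mem k h⟩
  else ⟨((fun _ => 0), 1), by simp [lor]⟩

/-- The affine functional of the wall `i` in the chart. -/
def RA.al (R : RA n I) (i : I) (k : Fin n → ℝ) : ℝ := (R.e i).2 - ∑ j, k j * (R.e i).1 j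

/-- The polytope in the chart. -/
def RA.P1 (R : RA n I) : Set (Fin n → ℝ) := {k | ∀ i, 0 ≤ R.al i k}

/-- The set of the walls through the point `k` of the chart. -/
def RA.act (R : RA n I) (k : Fin n → ℝ) : Set I := {i | R.al i k = 0}

/-- The faces of the polytope, given by the sets of walls containing them. -/
def RA.faces (R : RA n I) : Set (Set I) := {A | ∃ k ∈ R.P1, R.act k = A}

/-- A point in the relative interior of the face `A`. -/
def RA.b (R : RA n I) (A : Set I) : Fin n → ℝ :=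
  if h : ∃ k ∈ R.P1, R.act k = A then h.choose else 0

/-- `t` are the coordinates of `k` in the barycentric subdivision. -/
def RA.Bary [Fintype I] (R : RA n I) (k : Fin n → ℝ) (t : Set I → ℝ) : Prop :=
  (∀ A, 0 ≤ t A) ∧ (∀ A, t A ≠ 0 → A ∈ R.faces) ∧ (∀ A B, t A ≠ 0 → t B ≠ 0 → A ⊆ B ∨ B ⊆ A) ∧
    ∑ A, t A = 1 ∧ ∑ A, t A • R.b A = k

/-- The coordinates in the barycentric subdivision. -/
def RA.t [Fintype I] (R : RA n I) (k : Fin n → ℝ) : Set I → ℝ := Classical.epsilon (R.Bary k)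

/-- The orbit of `c` under the involutions `σ i`, `i ∈ A`. -/
def orb (σ : I → Equiv.Perm S) (A : Set I) (c : S) : Set S :=
  {c' | ∃ π ∈ Subgroup.closure (σ '' A), π c = c'}

/-- The involutions act transitively. -/
def Trans (σ : I → Equiv.Perm S) (s₀ : S) : Prop :=
  ∀ c, ∃ π ∈ Subgroup.closure (Set.range σ), π s₀ = c

/-- The map of the chamber `c` into the model. -/
def RA.inc [Fintype I] (R : RA n I) (σ : I → Equiv.Perm S) (k : Fin n → ℝ) (c : S) :
    Set I × Set S → ℝ :=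
  fun v => if v.2 = orb σ v.1 c then R.t k v.1 else 0

/-- The model of the orbit space. -/
def RA.X [Fintype I] (R : RA n I) (σ : I → Equiv.Perm S) : Set (Set I × Set S → ℝ) :=
  {z | ∃ k ∈ R.P1, ∃ c, z = R.inc σ k c}

/-- The point `x` lies over the point `k` of the chart of the polytope, in a chamber with label `c`. -/
def RA.At (R : RA n I) (σ : I → Equiv.Perm S) (s₀ : S) (x : Hyp n) (k : Fin n → ℝ) (c : S) : Prop :=
  ∃ g π, (g, π) ∈ R.GS σ ∧ ∃ p ∈ R.P, x = g p ∧ k = kl p ∧ π c = s₀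

/-- The weight of a point: the inverse of the time of its representative in the polytope. -/
def RA.wt (R : RA n I) (x : Hyp n) : ℝ :=
  (Classical.epsilon (fun p : Hyp n => p ∈ R.P ∧ ∃ g ∈ R.G, g p = x)).1.2⁻¹

/-- The triangulation: the translates of the simplices of the barycentric subdivision. -/
def RA.K (R : RA n I) : Set (Finset (Hyp n)) :=
  {τ | ∃ g ∈ R.G, ∃ C : Finset (Set I), C.Nonempty ∧ (∀ A ∈ C, A ∈ R.faces) ∧
    (∀ A ∈ C, ∀ B ∈ C, A ⊆ B ∨ B ⊆ A) ∧ τ = C.image (fun A => g (up (R.b A)))}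

/-- Finitely many affine functions agree with the real function `f` on the parts of `X` in convex polyhedra. -/
def PAr {ι : Type} (X : Set (ι → ℝ)) (f : (ι → ℝ) → ℝ) : Prop :=
  ContinuousOn f X ∧
  ∃ (m : ℕ) (C : Fin m → Set (ι → ℝ)) (A : Fin m → ((ι → ℝ) →ᵃ[ℝ] ℝ)),
    (∀ j, HPoly (C j)) ∧ (∀ x ∈ X, ∃ j, x ∈ C j) ∧ ∀ j, ∀ x ∈ X, x ∈ C j → f x = A j x

/-- `X` is the union of finitely many pieces `inc j '' Q j`, on each of which `inc j` has the affine inverse
`pr j` and which are cut out of `X` by finitely many convex polyhedra. -/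
def Atlas {ι α J : Type} (X : Set (ι → ℝ)) (Q : J → Set (α → ℝ)) (inc : J → (α → ℝ) → (ι → ℝ)) : Prop :=
  (∀ j, PA (Q j) (inc j)) ∧ (∀ z, z ∈ X ↔ ∃ j, ∃ k ∈ Q j, z = inc j k) ∧
  ∀ j, (∃ pr : (ι → ℝ) →ᵃ[ℝ] (α → ℝ), ∀ k ∈ Q j, pr (inc j k) = k) ∧
    ∃ (m : ℕ) (C : Fin m → Set (ι → ℝ)), (∀ l, HPoly (C l)) ∧
      ∀ z ∈ X, (∃ l, z ∈ C l) ↔ ∃ k ∈ Q j, z = inc j k

end

end Pool.Agent.MP_455d73_gt.PQ
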