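import Mathlib

/-!
Campaign PQ (MP_455d73_gt), definitions of the statement: hyperbolic space, its isometries, uniform lattices,
the right-angled segment, pentagon and dodecahedron, PL models of orbit spaces, PL homeomorphisms of polyhedra.
-/

set_option autoImplicit false

open Finset
open scoped goldenRatio

namespace Pool.Agent.MP_455d73_gt.PQ

noncomputable section

/-- Minkowski space: `n` space coordinates and the time. -/
abbrev Mk (n : ℕ) : Type := (Fin n → ℝ) × ℝ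

/-- The Lorentz form `x₁ y₁ + … + x_n y_n - t s`. -/
def lor {n : ℕ} (x y : Mk n) : ℝ := ∑ i, x.1 i * y.1 i - x.2 * y.2

/-- Hyperbolic `n`-space (hyperboloid model); the hyperbolic distance is `arcosh (- lor x y)`. -/
abbrev Hyp (n : ℕ) : Type := {x : Mk n // lor x x = -1 ∧ 0 < x.2}

/-- The group of isometries of hyperbolic space: the bijections which preserve `lor`. -/
def Isom (n : ℕ) : Subgroup (Equiv.Perm (Hyp n)) where
  carrier := {g | ∀ x y, lor (g x).1 (g y).1 = lor x.1 y.1}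
  mul_mem' := by
    intro a b ha hb x y
    simp only [Equiv.Perm.coe_mul, Function.comp_apply]
    rw [ha, hb]
  one_mem' := by
    intro x y
    rfl
  inv_mem' := by
    intro a ha x y
    have h := ha (a⁻¹ x) (a⁻¹ y)
    rw [show a (a⁻¹ x) = x from a.apply_symm_apply x,
      show a (a⁻¹ y) = y from a.apply_symm_apply y] at h
    exact h.symm

/-- A discrete cocompact group of isometries of hyperbolic space. -/
def Uniform {n : ℕ} (Γ : Subgroup (Equiv.Perm (Hyp n))) : Prop :=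
  Γ ≤ Isom n ∧
  (∀ K : Set (Hyp n), IsCompact K → {g | g ∈ Γ ∧ (g '' K ∩ K).Nonempty}.Finite) ∧
  ∃ K : Set (Hyp n), IsCompact K ∧ ∀ x, ∃ g ∈ Γ, g x ∈ K

/-- The outer normals of the walls of the regular right-angled segment (`n = 1`), pentagon (`n = 2`) and
dodecahedron (`n = 3`) with a vertex at the point `(0, …, 0; 1)`; `φ` is the golden ratio. -/
def walls (n : ℕ) : Set (Mk n) :=
  {e | ∃ i, e = (-Pi.single i 1, 0)} ∪
  {e | ∃ i, e = (Pi.single i φ, √φ)} ∪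
  {e | ∃ i j, i ≠ j ∧ e = (Pi.single i φ + Pi.single j φ, φ * √φ)} ∪
  {e | ∃ i j k, i ≠ j ∧ i ≠ k ∧ j ≠ k ∧
    e = (Pi.single i (φ ^ 2) + Pi.single j φ + Pi.single k φ, φ ^ 2 * √φ)}

/-- The group generated by the reflections in the walls of the segment, the pentagon, the dodecahedron. -/
def W (n : ℕ) : Subgroup (Equiv.Perm (Hyp n)) :=
  Subgroup.closure {g | ∃ e ∈ walls n, ∀ x, (g x).1 = x.1 - (2 * lor x.1 e) • e}

/-- `𝒦` is a triangulation of `Hⁿ` by geodesic simplices, given by their sets of vertices. -/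
def Triang {n : ℕ} (𝒦 : Set (Finset (Hyp n))) : Prop :=
  (∀ σ ∈ 𝒦, LinearIndependent ℝ (fun v : σ => (v : Hyp n).1)) ∧
  (∀ σ ∈ 𝒦, ∀ τ ⊆ σ, τ.Nonempty → τ ∈ 𝒦) ∧
  ∀ y : Hyp n, ∃! σ, σ ∈ 𝒦 ∧ ∃ t : Hyp n → ℝ, (∀ v ∈ σ, 0 < t v) ∧ y.1 = ∑ v ∈ σ, t v • v.1

/-- The triangulation `𝒦` and the weight `w` are invariant under `Γ`, and `𝒦` is finite modulo `Γ`. -/
def Inv {n : ℕ} (Γ : Subgroup (Equiv.Perm (Hyp n))) (𝒦 : Set (Finset (Hyp n))) (w : Hyp n → ℝ) : Prop :=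
  (∀ g ∈ Γ, ∀ x, w (g x) = w x) ∧
  (∀ g ∈ Γ, ∀ σ ∈ 𝒦, σ.map g.toEmbedding ∈ 𝒦) ∧
  ∃ 𝓕 : Finset (Finset (Hyp n)), ∀ σ ∈ 𝒦, ∃ τ ∈ 𝓕, ∃ g ∈ Γ, σ = τ.map g.toEmbedding

/-- The map `f` is affine on the geodesic simplex with the set of vertices `σ`, parametrised by
`t ↦ ℝ₊ ∑ v, t v * w v • v`. -/
def AffOn {n : ℕ} {ι : Type} (f : Hyp n → (ι → ℝ)) (w : Hyp n → ℝ) (σ : Finset (Hyp n)) : Prop :=
  ∀ t : Hyp n → ℝ, (∀ v ∈ σ, 0 ≤ t v) → ∑ v ∈ σ, t v = 1 →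
    ∀ (y : Hyp n) (r : ℝ), 0 < r → y.1 = r • ∑ v ∈ σ, (t v * w v) • v.1 → f y = ∑ v ∈ σ, t v • f v

/-- The orbit space `Hⁿ / Γ` (with the quotient topology). -/
abbrev Orb {n : ℕ} (Γ : Subgroup (Equiv.Perm (Hyp n))) : Type := Quotient (MulAction.orbitRel Γ (Hyp n))

/-- `X` is a polyhedral model of the PL space `Hⁿ / Γ`: there are a `Γ`-invariant triangulation `𝒦` of `Hⁿ` by
geodesic simplices, which is finite modulo `Γ`, and a homeomorphism of the orbit space onto `X` which is affine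
on the simplices of `𝒦`, these being parametrised by `t ↦ ℝ₊ ∑ v, t v * w v • v` with positive
`Γ`-invariant weights `w`. -/
def IsModel {n : ℕ} {ι : Type} (Γ : Subgroup (Equiv.Perm (Hyp n))) (X : Set (ι → ℝ)) : Prop :=
  ∃ (Φ : Orb Γ ≃ₜ X) (𝒦 : Set (Finset (Hyp n))) (w : Hyp n → ℝ),
    (∀ x, 0 < w x) ∧ Triang 𝒦 ∧ Inv Γ 𝒦 w ∧
      ∀ σ ∈ 𝒦, AffOn (fun y => (Φ (Quotient.mk _ y) : ι → ℝ)) w σ

/-- A convex polyhedron: a finite intersection of closed half-spaces. -/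
def HPoly {ι : Type} (C : Set (ι → ℝ)) : Prop :=
  ∃ L : Finset ((ι → ℝ) →ᵃ[ℝ] ℝ), C = {x | ∀ l ∈ L, 0 ≤ l x}

/-- The map `f` is continuous and piecewise affine on `X`: finitely many convex polyhedra cover `X`, and on
the part of `X` in each of them `f` agrees with an affine map. -/
def PA {ι κ : Type} (X : Set (ι → ℝ)) (f : (ι → ℝ) → (κ → ℝ)) : Prop :=
  ContinuousOn f X ∧
  ∃ (m : ℕ) (C : Fin m → Set (ι → ℝ)) (A : Fin m → ((ι → ℝ) →ᵃ[ℝ] (κ → ℝ))),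
    (∀ j, HPoly (C j)) ∧ (∀ x ∈ X, ∃ j, x ∈ C j) ∧ ∀ j, ∀ x ∈ X, x ∈ C j → f x = A j x

/-- The sets `X` and `Y` are PL homeomorphic: there are mutually inverse piecewise affine maps. -/
def PLHomeo {ι κ : Type} (X : Set (ι → ℝ)) (Y : Set (κ → ℝ)) : Prop :=
  ∃ (f : (ι → ℝ) → (κ → ℝ)) (g : (κ → ℝ) → (ι → ℝ)),
    PA X f ∧ PA Y g ∧ (∀ x ∈ X, f x ∈ Y ∧ g (f x) = x) ∧ (∀ y ∈ Y, g y ∈ X ∧ f (g y) = y)

/-- The orbit space `Hⁿ / Γ` is PL homeomorphic to the polyhedron `Y`. -/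
def QuotPL {n : ℕ} {κ : Type} (Γ : Subgroup (Equiv.Perm (Hyp n))) (Y : Set (κ → ℝ)) : Prop :=
  ∃ (ι : Type) (_ : Fintype ι) (X : Set (ι → ℝ)), IsModel Γ X ∧ PLHomeo X Y

/-- The product of two sets. -/
def prodSet {ι κ : Type} (X : Set (ι → ℝ)) (Y : Set (κ → ℝ)) : Set (ι ⊕ κ → ℝ) :=
  {z | (fun i => z (Sum.inl i)) ∈ X ∧ (fun j => z (Sum.inr j)) ∈ Y}

end

end Pool.Agent.MP_455d73_gt.PQ
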