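import Pool.Agent.Lib.MP_455d73_gt.Mg.G034
import Pool.Agent.Lib.MP_455d73_gt.Mg.G032

/-!
TASK E22 (medium): the 120-cell splits as the product of two pentagons.

`κ i = inl i` for `i < 5`, `inr 0` for `i = 5`, `inr 1` for `5 < i < 12`, `inr 2` for `i = 12`, `inr 3` for `12 < i < 19`, `inr 4` for `18 < i`
(`kR22`). The maps from `split22_maps`. `sz 4 = 120`, `sz 2 = 5`.
`actL`: for `k ∈ P1`, `al j (f k (inl ·)) = al j (k 0, k 1)` and this is `al j k` in dimension 4 (`al_low` for `n = 2` and `n = 3`); `κ i = inl j` iff `i = j`.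
`actR`: by `al_two` (with `φ > 0`, `num`): `al 0 z = 0 ↔ z 0 = 0 ↔ k 2 = 0 ↔ al 5 k = 0` (`al_mid` for `n = 2`, `al_low` for `n = 3`);
`al 1 z = 0 ↔ z 0 = 1/√φ ↔ k 2 = tau 2 ↔ ∃ 5 < i < 12` active (`top_act` for `n = 2` at the point `(k 0, k 1, k 2)`, which is in `P1` of dimension 3
by `mem_P1_succ`, and `al_low` for `n = 3`); `al 2 z = 0 ↔ z 1 = 0 ↔ k 3 = 0 ↔ al 12 k = 0` (`al_mid` for `n = 3`); `al 3 z = 0 ↔ z 1 = 1/√φ ↔ out_act`;
`al 4 z = 0 ↔ z 0 + z 1 = √φ ↔ in_act`.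
`comL`: for `i, i' < 5` `lor (ev 4 i) (ev 4 i') = lor (ev 2 i) (ev 2 i')` (`lor_ev_low`). `comR`: `lor_ev`, `vl_zero_iff`, `com22_chk` (decidable; `decide +kernel`, tested
in Python; it has 115² pairs, less than a minute), and `lor_ev_low`, `lor_ev` for the pentagon. `surj`: `0, …, 4`; `5, 6, 12, 13, 19`.
-/

set_option autoImplicit false

open Finset
open scoped Classical goldenRatio

namespace Pool.Agent.MP_455d73_gt.PQ

/-- The second component of the map of the walls. -/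
def kR22 (i : ℕ) : ℕ := if i ≤ 5 then 0 else if i < 12 then 1 else if i = 12 then 2 else if i < 19 then 3 else 4

/-- Boolean form of the check. -/
def E22_cb (i j : ℕ) : Bool :=
  !((gr i j).1 == 0 && (gr i j).2 == 0) || (kR22 i == kR22 j) ||
    ((gr (kR22 i) (kR22 j)).1 == 0 && (gr (kR22 i) (kR22 j)).2 == 0)

/-- Boolean form of the check. -/
def E22_ck : Bool :=
  (List.range 120).all (fun i => Nat.blt i 5 || (List.range 120).all (fun j => Nat.blt j 5 || E22_cb i j))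

set_option maxRecDepth 100000 in
theorem E22_ck_true : E22_ck = true := by
  decide +kernel

theorem com22_chk : ∀ i < 120, 5 ≤ i → ∀ j < 120, 5 ≤ j → gr i j = (0, 0) →
    kR22 i = kR22 j ∨ gr (kR22 i) (kR22 j) = (0, 0) := by
  intro i hi hi5 j hj hj5 hg
  have h := E22_ck_true
  unfold E22_ck at h
  rw [List.all_eq_true] at h
  have h1 := h i (List.mem_range.mpr hi)
  rw [Bool.or_eq_true] at h1
  rcases h1 with h1 | h1
  · have : i < 5 := by simpa using h1
    omega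
  · rw [List.all_eq_true] at h1
    have h2 := h1 j (List.mem_range.mpr hj)
    rw [Bool.or_eq_true] at h2
    rcases h2 with h2 | h2
    · have : j < 5 := by simpa using h2
      omega
    · unfold E22_cb at h2
      rw [hg] at h2
      simp only [beq_self_eq_true, Bool.and_self, Bool.not_true, Bool.false_or, Bool.or_eq_true,
        beq_iff_eq, Bool.and_eq_true] at h2
      rcases h2 with h2 | h2
      · exact Or.inl h2
      · exact Or.inr (Prod.ext h2.1 h2.2)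

theorem E22_low (i : ℕ) (hi : i < sz 2) (hi' : i < sz 4) (k : Fin 4 → ℝ) :
    (sys 4 (by omega) (by omega)).al ⟨i, hi'⟩ k =
      (sys 2 (by omega) (by omega)).al ⟨i, hi⟩ (fun l => k l.castSucc.castSucc) := by
  have h3 : i < sz 3 := lt_trans hi (sz_lt 2 (by omega) (by omega))
  have h1 := al_low 3 (by omega) (by omega) i h3 hi' k
  have h2 := al_low 2 (by omega) (by omega) i hi h3 (fun l => k l.castSucc)
  exact h1.trans h2

theorem E22_P3 (k : Fin 4 → ℝ) (hk : k ∈ (sys 4 (by omega) (by omega)).P1) :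
    (fun l : Fin 3 => k l.castSucc) ∈ (sys 3 (by omega) (by omega)).P1 :=
  ((mem_P1_succ 3 (by omega) (by omega) k).mp hk).1

theorem E22_mid2 (h : 5 < sz 4) (k : Fin 4 → ℝ) :
    (sys 4 (by omega) (by omega)).al ⟨5, h⟩ k = k 2 := by
  have h3 : sz 2 < sz 3 := sz_lt 2 (by omega) (by omega)
  have h4 : sz 2 < sz 4 := h
  have h1 := al_low 3 (by omega) (by omega) (sz 2) h3 h4 k
  have h2 := al_mid 2 (by omega) (by omega) h3 (fun l => k l.castSucc)
  exact h1.trans h2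

theorem E22_mid3 (h : 12 < sz 4) (k : Fin 4 → ℝ) :
    (sys 4 (by omega) (by omega)).al ⟨12, h⟩ k = k 3 :=
  al_mid 3 (by omega) (by omega) h k

theorem E22_top2 (k : Fin 4 → ℝ) (hk : k ∈ (sys 4 (by omega) (by omega)).P1) :
    (∃ i : Fin (sz 4), 5 < (i : ℕ) ∧ (i : ℕ) < 12 ∧ (sys 4 (by omega) (by omega)).al i k = 0) ↔
      k 2 = tau 2 (fun l => k l.castSucc.castSucc) := by
  have h := top_act 2 (by omega) (by omega) (fun l => k l.castSucc) (E22_P3 k hk)
  constructor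
  · rintro ⟨⟨i, hi'⟩, h5, h12, h0⟩
    refine h.mp ⟨⟨i, h12⟩, h5, ?_⟩
    have h1 := al_low 3 (by omega) (by omega) i h12 hi' k
    exact h1.symm.trans h0
  · intro h0
    obtain ⟨⟨i, hi⟩, h5, h1⟩ := h.mpr h0
    have hi' : i < sz 4 := lt_trans hi (sz_lt 3 (by omega) (by omega))
    have h2 := al_low 3 (by omega) (by omega) i hi hi' k
    exact ⟨⟨i, hi'⟩, h5, hi, h2.trans h1⟩

theorem E22_kR_lt (i : ℕ) : kR22 i < sz 2 := by
  have h : kR22 i < 5 := by
    unfold kR22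
    split_ifs <;> omega
  exact h

/-- The map of the walls. -/
def E22_k (i : Fin (sz 4)) : Fin (sz 2) ⊕ Fin (sz 2) :=
  if h : (i : ℕ) < 5 then Sum.inl ⟨i, h⟩ else Sum.inr ⟨kR22 i, E22_kR_lt i⟩

theorem E22_k_inl (i : Fin (sz 4)) (j : Fin (sz 2)) : E22_k i = Sum.inl j ↔ (i : ℕ) = (j : ℕ) := by
  unfold E22_k
  split_ifs with h
  · constructor
    · intro h1
      rw [Sum.inl.injEq] at h1
      rw [← h1]
    · intro h1
      rw [Sum.inl.injEq]
      exact Fin.ext h1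
  · constructor
    · intro h1
      exact absurd h1 (by simp)
    · intro h1
      have hj : (j : ℕ) < 5 := j.2
      omega

theorem E22_k_inr (i : Fin (sz 4)) (j : Fin (sz 2)) :
    E22_k i = Sum.inr j ↔ 5 ≤ (i : ℕ) ∧ kR22 i = (j : ℕ) := by
  unfold E22_k
  split_ifs with h
  · constructor
    · intro h1
      exact absurd h1 (by simp)
    · intro h1
      omega
  · constructor
    · intro h1
      rw [Sum.inr.injEq] at h1
      refine ⟨by omega, ?_⟩
      rw [← h1]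
    · intro h1
      rw [Sum.inr.injEq]
      exact Fin.ext h1.2

theorem E22_ex (j : ℕ) (hj : j < sz 2) (p : Fin (sz 4) → Prop) :
    (∃ i, E22_k i = Sum.inr ⟨j, hj⟩ ∧ p i) ↔ ∃ i : Fin (sz 4), (5 ≤ (i : ℕ) ∧ kR22 i = j) ∧ p i := by
  constructor
  · rintro ⟨i, h, hp⟩
    exact ⟨i, (E22_k_inr i _).mp h, hp⟩
  · rintro ⟨i, h, hp⟩
    exact ⟨i, (E22_k_inr i _).mpr h, hp⟩

theorem E22_c0 (i : ℕ) : (5 ≤ i ∧ kR22 i = 0) ↔ i = 5 := by
  unfold kR22
  constructor
  · rintro ⟨h1, h2⟩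
    split_ifs at h2 <;> omega
  · intro h
    refine ⟨by omega, ?_⟩
    split_ifs <;> omega

theorem E22_c1 (i : ℕ) : (5 ≤ i ∧ kR22 i = 1) ↔ 5 < i ∧ i < 12 := by
  unfold kR22
  constructor
  · rintro ⟨h1, h2⟩
    split_ifs at h2 <;> omega
  · intro h
    refine ⟨by omega, ?_⟩
    split_ifs <;> omega

theorem E22_c2 (i : ℕ) : (5 ≤ i ∧ kR22 i = 2) ↔ i = 12 := by
  unfold kR22
  constructor
  · rintro ⟨h1, h2⟩
    split_ifs at h2 <;> omega
  · intro h
    refine ⟨by omega, ?_⟩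
    split_ifs <;> omega

theorem E22_c3 (i : ℕ) : (5 ≤ i ∧ kR22 i = 3) ↔ 12 < i ∧ i < 19 := by
  unfold kR22
  constructor
  · rintro ⟨h1, h2⟩
    split_ifs at h2 <;> omega
  · intro h
    refine ⟨by omega, ?_⟩
    split_ifs <;> omega

theorem E22_c4 (i : ℕ) : (5 ≤ i ∧ kR22 i = 4) ↔ 18 < i := by
  unfold kR22
  constructor
  · rintro ⟨h1, h2⟩
    split_ifs at h2 <;> omega
  · intro h
    refine ⟨by omega, ?_⟩
    split_ifs <;> omega

theorem E22_actR (k : Fin 4 → ℝ) (hk : k ∈ (sys 4 (by omega) (by omega)).P1) (z : Fin 2 → ℝ)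
    (h0 : z 0 = 0 ↔ k 2 = 0)
    (h1 : z 0 = 1 / √φ ↔ k 2 = tau 2 (fun l => k l.castSucc.castSucc))
    (h2 : z 1 = 0 ↔ k 3 = 0)
    (h3 : z 1 = 1 / √φ ↔
        k 3 = tau 3 (fun l => k l.castSucc) ∧ k 2 ≤ s3 (fun l => k l.castSucc.castSucc))
    (h4 : z 0 + z 1 = √φ ↔
        k 3 = tau 3 (fun l => k l.castSucc) ∧ s3 (fun l => k l.castSucc.castSucc) ≤ k 2)
    (j : Fin (sz 2)) :
    (sys 2 (by omega) (by omega)).al j z = 0 ↔
      ∃ i, E22_k i = Sum.inr j ∧ (sys 4 (by omega) (by omega)).al i k = 0 := by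
  obtain ⟨hn1, hn2, hn3, hn4⟩ := num
  obtain ⟨j, hj⟩ := j
  obtain ⟨a0, a1, a2, a3, a4⟩ := al_two (by omega) (by omega) z
  rw [E22_ex]
  have hj5 : j < 5 := hj
  have hs5 : 5 < sz 4 := by
    show 5 < 120
    omega
  have hs12 : 12 < sz 4 := by
    show 12 < 120
    omega
  have hc : j = 0 ∨ j = 1 ∨ j = 2 ∨ j = 3 ∨ j = 4 := by omega
  rcases hc with rfl | rfl | rfl | rfl | rfl
  · rw [a0 hj, h0]
    constructor
    · intro h
      exact ⟨⟨5, hs5⟩, (E22_c0 5).mpr rfl, (E22_mid2 hs5 k).trans h⟩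
    · rintro ⟨⟨i, hi⟩, hi5, h⟩
      have hi' : i = 5 := (E22_c0 i).mp hi5
      subst hi'
      exact (E22_mid2 hs5 k).symm.trans h
  · rw [a1 hj]
    have : φ * (1 / √φ - z 0) = 0 ↔ z 0 = 1 / √φ := by
      constructor
      · intro h
        rcases mul_eq_zero.mp h with h | h
        · exact absurd h hn4.ne'
        · linarith
      · intro h
        rw [h, sub_self, mul_zero]
    rw [this, h1, ← E22_top2 k hk]
    constructor
    · rintro ⟨i, hi5, hi12, h⟩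
      exact ⟨i, (E22_c1 i).mpr ⟨hi5, hi12⟩, h⟩
    · rintro ⟨i, hi, h⟩
      have := (E22_c1 i).mp hi
      exact ⟨i, this.1, this.2, h⟩
  · rw [a2 hj, h2]
    constructor
    · intro h
      exact ⟨⟨12, hs12⟩, (E22_c2 12).mpr rfl, (E22_mid3 hs12 k).trans h⟩
    · rintro ⟨⟨i, hi⟩, hi5, h⟩
      have hi' : i = 12 := (E22_c2 i).mp hi5
      subst hi'
      exact (E22_mid3 hs12 k).symm.trans h
  · rw [a3 hj]
    have : φ * (1 / √φ - z 1) = 0 ↔ z 1 = 1 / √φ := by
      constructor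
      · intro h
        rcases mul_eq_zero.mp h with h | h
        · exact absurd h hn4.ne'
        · linarith
      · intro h
        rw [h, sub_self, mul_zero]
    rw [this, h3, ← out_act k hk]
    constructor
    · rintro ⟨i, hi5, hi12, h⟩
      exact ⟨i, (E22_c3 i).mpr ⟨hi5, hi12⟩, h⟩
    · rintro ⟨i, hi, h⟩
      have := (E22_c3 i).mp hi
      exact ⟨i, this.1, this.2, h⟩
  · rw [a4 hj]
    have : φ * (√φ - z 0 - z 1) = 0 ↔ z 0 + z 1 = √φ := by
      constructor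
      · intro h
        rcases mul_eq_zero.mp h with h | h
        · exact absurd h hn4.ne'
        · linarith
      · intro h
        rw [← h]
        ring
    rw [this, h4, ← in_act k hk]
    constructor
    · rintro ⟨i, hi5, h⟩
      exact ⟨i, (E22_c4 i).mpr hi5, h⟩
    · rintro ⟨i, hi, h⟩
      exact ⟨i, (E22_c4 i).mp hi, h⟩

theorem E22_comL (i i' : Fin (sz 4)) (j j' : Fin (sz 2)) (h : E22_k i = Sum.inl j)
    (h' : E22_k i' = Sum.inl j')
    (h0 : lor ((sys 4 (by omega) (by omega)).e i) ((sys 4 (by omega) (by omega)).e i') = 0) :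
    lor ((sys 2 (by omega) (by omega)).e j) ((sys 2 (by omega) (by omega)).e j') = 0 := by
  have h1 : (i : ℕ) = (j : ℕ) := (E22_k_inl i j).mp h
  have h2 : (i' : ℕ) = (j' : ℕ) := (E22_k_inl i' j').mp h'
  have h3 : lor (ev 4 (i : ℕ)) (ev 4 (i' : ℕ)) = 0 := h0
  have h4 : lor (ev 2 (j : ℕ)) (ev 2 (j' : ℕ)) = 0 := by
    rw [lor_ev_low 2 (by omega) (by omega) j j.2 j', ← h1, ← h2]
    exact h3
  exact h4

theorem E22_comR (i i' : Fin (sz 4)) (j j' : Fin (sz 2)) (h : E22_k i = Sum.inr j)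
    (h' : E22_k i' = Sum.inr j')
    (h0 : lor ((sys 4 (by omega) (by omega)).e i) ((sys 4 (by omega) (by omega)).e i') = 0) :
    j = j' ∨ lor ((sys 2 (by omega) (by omega)).e j) ((sys 2 (by omega) (by omega)).e j') = 0 := by
  have h1 := (E22_k_inr i j).mp h
  have h2 := (E22_k_inr i' j').mp h'
  have h3 : lor (ev 4 (i : ℕ)) (ev 4 (i' : ℕ)) = 0 := h0
  rw [lor_ev, vl_zero_iff] at h3
  rcases com22_chk i i.2 h1.1 i' i'.2 h2.1 h3 with h4 | h4
  · left
    rw [h1.2, h2.2] at h4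
    exact Fin.ext h4
  · right
    rw [h1.2, h2.2] at h4
    have h5 : lor (ev 2 (j : ℕ)) (ev 2 (j' : ℕ)) = 0 := by
      rw [lor_ev_low 2 (by omega) (by omega) j j.2 j', lor_ev, vl_zero_iff]
      exact h4
    exact h5

theorem E22_surj (j : Fin (sz 2) ⊕ Fin (sz 2)) : ∃ i, E22_k i = j := by
  have hs : sz 4 = 120 := rfl
  rcases j with j | ⟨j, hj⟩
  · have hj : (j : ℕ) < 5 := j.2
    exact ⟨⟨j, by omega⟩, (E22_k_inl _ j).mpr rfl⟩
  · have hj5 : j < 5 := hj
    have hc : j = 0 ∨ j = 1 ∨ j = 2 ∨ j = 3 ∨ j = 4 := by omega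
    rcases hc with rfl | rfl | rfl | rfl | rfl
    · exact ⟨⟨5, by omega⟩, (E22_k_inr _ _).mpr ((E22_c0 5).mpr rfl)⟩
    · exact ⟨⟨6, by omega⟩, (E22_k_inr _ _).mpr ((E22_c1 6).mpr (by omega))⟩
    · exact ⟨⟨12, by omega⟩, (E22_k_inr _ _).mpr ((E22_c2 12).mpr rfl)⟩
    · exact ⟨⟨13, by omega⟩, (E22_k_inr _ _).mpr ((E22_c3 13).mpr (by omega))⟩
    · exact ⟨⟨19, by omega⟩, (E22_k_inr _ _).mpr ((E22_c4 19).mpr (by omega))⟩

theorem split22 : Nonempty (Split (sys 4 (by omega) (by omega)) (sys 2 (by omega) (by omega))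
    (sys 2 (by omega) (by omega))) := by
  obtain ⟨f, g, hf, hg, hgf, hfg, hk⟩ := split22_maps
  refine ⟨⟨E22_k, f, g, hf, hg, hgf, hfg, ?_, ?_, ?_, ?_, ?_⟩⟩
  · intro k hk1 j
    obtain ⟨hl, -⟩ := hk k hk1
    have hz : (fun x => f k (Sum.inl x)) = fun l : Fin 2 => k l.castSucc.castSucc := funext hl
    rw [hz]
    have hj : (j : ℕ) < sz 4 := by
      have h1 : (j : ℕ) < 5 := j.2
      show (j : ℕ) < 120
      omega
    have h2 := E22_low j j.2 hj k
    constructor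
    · intro h
      exact ⟨⟨j, hj⟩, (E22_k_inl _ j).mpr rfl, h2.trans h⟩
    · rintro ⟨i, hi, h⟩
      have h3 : (i : ℕ) = (j : ℕ) := (E22_k_inl i j).mp hi
      have h4 : i = ⟨j, hj⟩ := Fin.ext h3
      rw [h4] at h
      exact h2.symm.trans h
  · intro k hk1 j
    obtain ⟨-, b0, b1, b2, b3, b4⟩ := hk k hk1
    exact E22_actR k hk1 (fun x => f k (Sum.inr x)) b0 b1 b2 b3 b4 j
  · intro i i' j j' h h' h0
    exact Or.inr (E22_comL i i' j j' h h' h0)
  · intro i i' j j' h h' h0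
    exact E22_comR i i' j j' h h' h0
  · exact E22_surj

end Pool.Agent.MP_455d73_gt.PQ
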