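import Pool.Agent.Lib.MP_455d73_gt.Mg.G029

/-!
TASK F1 (easy, computation): finite checks on the table. Every statement is decidable and is proved by `decide +kernel` (the first
one, with 14400 pairs, takes about a minute; `set_option maxRecDepth 100000` may be needed). If a statement with a `Prop` that is
not found decidable makes trouble, state a `Bool` version first (as in `t1 : ∀ i < 120, ∀ j < 120, i = j ∨ okv (gr i j) = true := by decide +kernel`,
which was tested) and derive the statement.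
-/

set_option autoImplicit false

open scoped goldenRatio

set_option maxRecDepth 100000

namespace Pool.Agent.MP_455d73_gt.PQ

/-- The values of the Gram matrix off the diagonal. -/
def offv : List (ℤ × ℤ) := [(0,0), (0,-1), (-1,-1), (-1,-2), (-1,-3), (-2,-3), (-2,-4), (-3,-4)]

private theorem F1_off_bool : ∀ i < 120, ∀ j < 120, (i == j || offv.contains (gr i j)) = true := by
  decide +kernel

theorem gr_off : ∀ i < 120, ∀ j < 120, i ≠ j → gr i j ∈ offv := by
  intro i hi j hj hij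
  have h := F1_off_bool i hi j hj
  rw [Bool.or_eq_true] at h
  rcases h with h | h
  · exact absurd (by simpa using h) hij
  · simpa using h

theorem gr_diag : ∀ i < 120, gr i i = (1, 0) := by
  decide +kernel

theorem ctr_chk : ∀ i < 120, co i 0 + co i 1 + co i 2 + co i 3 - ml (1, 1) (co i 4) = (-1, 0) := by
  decide +kernel

/-- The first walls lie in coordinate subspaces. -/
theorem low_chk : (∀ i < 12, co i 3 = (0, 0)) ∧ (∀ i < 5, co i 2 = (0, 0)) ∧ (∀ i < 2, co i 1 = (0, 0)) := by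
  decide +kernel

/-- The coordinate walls. -/
theorem coord_chk : (∀ j < 5, co 0 j = if j = 0 then (-1, 0) else (0, 0)) ∧
    (∀ j < 5, co 2 j = if j = 1 then (-1, 0) else (0, 0)) ∧
    (∀ j < 5, co 5 j = if j = 2 then (-1, 0) else (0, 0)) ∧
    (∀ j < 5, co 12 j = if j = 3 then (-1, 0) else (0, 0)) := by
  decide +kernel

private theorem F1_pos_or : ∀ i < 120, i = 0 ∨ i = 2 ∨ i = 5 ∨ i = 12 ∨
    ((∀ j < 4, co i j = (0, 0) ∨ (0 ≤ (co i j).1 ∧ 0 ≤ (co i j).2 ∧ 1 ≤ (co i j).1 + (co i j).2)) ∧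
    (0 ≤ (co i 4).1 ∧ 0 ≤ (co i 4).2 ∧ 1 ≤ (co i 4).1 + (co i 4).2)) := by
  decide +kernel

/-- The coordinates of the other walls are `0` or positive (`≥ 1`), the time is positive. -/
theorem pos_chk : ∀ i < 120, i ≠ 0 → i ≠ 2 → i ≠ 5 → i ≠ 12 →
    (∀ j < 4, co i j = (0, 0) ∨ (0 ≤ (co i j).1 ∧ 0 ≤ (co i j).2 ∧ 1 ≤ (co i j).1 + (co i j).2)) ∧
    (0 ≤ (co i 4).1 ∧ 0 ≤ (co i 4).2 ∧ 1 ≤ (co i 4).1 + (co i 4).2) := by
  intro i hi h0 h2 h5 h12
  rcases F1_pos_or i hi with h | h | h | h | h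
  · exact absurd h h0
  · exact absurd h h2
  · exact absurd h h5
  · exact absurd h h12
  · exact h

/-- Which coordinates are not zero. -/
theorem supp_chk : (∀ i < 120, 12 < i → co i 3 ≠ (0, 0)) ∧ (∀ i < 12, 5 < i → co i 2 ≠ (0, 0)) ∧
    (∀ i < 5, 2 < i → co i 1 ≠ (0, 0)) ∧ (∀ i < 19, 12 < i → co i 2 = (0, 0)) ∧
    (∀ i < 120, 18 < i → co i 2 ≠ (0, 0)) ∧ co 1 0 ≠ (0, 0) := by
  decide +kernel

/-- The walls of the pentagon and of the dodecahedron. -/
theorem walls_chk : (∀ j < 5, co 1 j = if j = 0 then (0, 1) else if j = 4 then (1, 0) else (0, 0)) ∧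
    (∀ j < 5, co 3 j = if j = 1 then (0, 1) else if j = 4 then (1, 0) else (0, 0)) ∧
    (∀ j < 5, co 4 j = if j = 0 ∨ j = 1 ∨ j = 4 then (0, 1) else (0, 0)) ∧
    (∀ j < 5, co 6 j = if j = 2 then (0, 1) else if j = 4 then (1, 0) else (0, 0)) ∧
    (∀ j < 5, co 7 j = if j = 0 ∨ j = 2 ∨ j = 4 then (0, 1) else (0, 0)) ∧
    (∀ j < 5, co 8 j = if j = 1 ∨ j = 2 ∨ j = 4 then (0, 1) else (0, 0)) ∧
    (∀ j < 5, co 9 j = if j = 0 ∨ j = 4 then (1, 1) else if j = 3 then (0, 0) else (0, 1)) ∧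
    (∀ j < 5, co 10 j = if j = 1 ∨ j = 4 then (1, 1) else if j = 3 then (0, 0) else (0, 1)) ∧
    (∀ j < 5, co 11 j = if j = 2 ∨ j = 4 then (1, 1) else if j = 3 then (0, 0) else (0, 1)) := by
  decide +kernel

/-- No wall of type 3 is orthogonal to a wall of type 4. -/
theorem no34_chk : ∀ i < 12, 5 < i → ∀ j < 19, 12 < j → gr i j ≠ (0, 0) := by
  decide +kernel

end Pool.Agent.MP_455d73_gt.PQ
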