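import Pool.Agent.Lib.MP_455d73_gt.PQ.E22
import Pool.Agent.Lib.MP_455d73_gt.Mg.G034
import Pool.Agent.Lib.MP_455d73_gt.Mg.G032
import Pool.Agent.Lib.MP_455d73_gt.Mg.G044

/-!
TASK Fin (easy): the theorem (the statement of the hand-in).

`a + b = 4`, `a, b ≥ 1`: `(a, b) = (3, 1)`: `split31`; `(2, 2)`: `split22`; `(1, 3)`: `split31` and `Split.swap`. In each case rewrite `W a`, `W b` by `sys_G` and
apply `Split.main`.
-/

set_option autoImplicit false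

open Finset
open scoped Classical goldenRatio

namespace Pool.Agent.MP_455d73_gt.PQ

theorem final (a b : ℕ) (ha : 0 < a) (hb : 0 < b) (hab : a + b = 4)
    (Γ : Subgroup (Equiv.Perm (Hyp a))) (hΓ : Γ ≤ W a) (hΓf : (Γ.subgroupOf (W a)).FiniteIndex)
    (Δ : Subgroup (Equiv.Perm (Hyp b))) (hΔ : Δ ≤ W b) (hΔf : (Δ.subgroupOf (W b)).FiniteIndex) :
    ∃ (ι κ : Type) (_ : Fintype ι) (_ : Fintype κ) (X : Set (ι → ℝ)) (Y : Set (κ → ℝ)),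
      IsModel Γ X ∧ IsModel Δ Y ∧
        ∃ Λ : Subgroup (Equiv.Perm (Hyp 4)), Uniform Λ ∧ QuotPL Λ (prodSet X Y) := by
  have h : (a = 3 ∧ b = 1) ∨ (a = 2 ∧ b = 2) ∨ (a = 1 ∧ b = 3) := by omega
  rcases h with ⟨rfl, rfl⟩ | ⟨rfl, rfl⟩ | ⟨rfl, rfl⟩
  · obtain ⟨T⟩ := split31
    have e1 := sys_G 3 (by omega) (by omega)
    have e2 := sys_G 1 (by omega) (by omega)
    rw [e1] at hΓ hΓf
    rw [e2] at hΔ hΔf
    exact T.main Γ hΓ hΓf Δ hΔ hΔf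
  · obtain ⟨T⟩ := split22
    have e1 := sys_G 2 (by omega) (by omega)
    rw [e1] at hΓ hΓf hΔ hΔf
    exact T.main Γ hΓ hΓf Δ hΔ hΔf
  · obtain ⟨T'⟩ := split31
    obtain ⟨T⟩ := T'.swap
    have e1 := sys_G 1 (by omega) (by omega)
    have e2 := sys_G 3 (by omega) (by omega)
    rw [e1] at hΓ hΓf
    rw [e2] at hΔ hΔf
    exact T.main Γ hΓ hΓf Δ hΔ hΔf

end Pool.Agent.MP_455d73_gt.PQ
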